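import Pool.Agent.X182.FE.Neg

set_option autoImplicit false

/-!
# Continuous solutions of `f (x + f x) = f x + f (f x)`
-/

open Filter Topology Set

namespace Pool.Agent.X182.FE

/-- continuous solutions -/
structure Sol (f : ℝ → ℝ) : Prop where
  cont : Continuous f
  eq : ∀ x, f (x + f x) = f x + f (f x)

/-- the mirror image -/
def mir (f : ℝ → ℝ) : ℝ → ℝ := fun x => -f (-x)

theorem Sol.mir {f : ℝ → ℝ} (H : Sol f) : Sol (mir f) := by
  refine ⟨(H.cont.comp continuous_neg).neg, fun x => ?_⟩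
  show -f (-(x + -f (-x))) = -f (-x) + -f (-(-f (-x)))
  have := H.eq (-x)
  rw [show -(x + -f (-x)) = -x + f (-x) by ring, neg_neg, this]
  ring

theorem Sol.zero {f : ℝ → ℝ} (H : Sol f) : f 0 = 0 := by
  have := H.eq 0
  rw [zero_add] at this
  linarith

/-! ### Elementary real analysis -/

theorem endR {φ : ℝ → ℝ} (hφ : Continuous φ) {a b : ℝ} (hab : a < b) (ha : φ a = 0)
    (hb : 0 < φ b) : ∃ E, a ≤ E ∧ E < b ∧ φ E = 0 ∧ ∀ t, E < t → t ≤ b → 0 < φ t := by
  have hS : IsCompact (Icc a b ∩ {t | φ t ≤ 0}) :=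
    isCompact_Icc.inter_right (isClosed_le hφ continuous_const)
  obtain ⟨E, hE, hmax⟩ := hS.exists_isGreatest ⟨a, ⟨le_rfl, hab.le⟩, ha.le⟩
  have hE2 : φ E ≤ 0 := hE.2
  have hEb : E < b := by
    refine lt_of_le_of_ne hE.1.2 fun h => ?_
    rw [h] at hE2
    linarith
  have hpos : ∀ t, E < t → t ≤ b → 0 < φ t := by
    intro t h1 h2
    by_contra hcon
    push Not at hcon
    exact absurd (hmax ⟨⟨hE.1.1.trans h1.le, h2⟩, hcon⟩) (not_le.2 h1)
  refine ⟨E, hE.1.1, hEb, le_antisymm hE2 ?_, hpos⟩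
  have hc : Tendsto φ (𝓝[>] E) (𝓝 (φ E)) := (hφ.tendsto E).mono_left nhdsWithin_le_nhds
  refine ge_of_tendsto hc ?_
  filter_upwards [Ioo_mem_nhdsGT hEb] with t ht
  exact (hpos t ht.1 ht.2.le).le

theorem endL {φ : ℝ → ℝ} (hφ : Continuous φ) {a b : ℝ} (hab : b < a) (ha : φ a = 0)
    (hb : 0 < φ b) : ∃ E, E ≤ a ∧ b < E ∧ φ E = 0 ∧ ∀ t, b ≤ t → t < E → 0 < φ t := by
  obtain ⟨E, h1, h2, h3, h4⟩ := endR (φ := fun x => φ (-x)) (hφ.comp continuous_neg)
    (a := -a) (b := -b) (by linarith) (by simpa using ha) (by simpa using hb)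
  refine ⟨-E, by linarith, by linarith, h3, fun t ht1 ht2 => ?_⟩
  have := h4 (-t) (by linarith) (by linarith)
  simpa using this

theorem near_R {φ : ℝ → ℝ} {E b : ℝ} (hEb : E < b) (h : ∀ t, E < t → t ≤ b → 0 < φ t) :
    ∀ δ > 0, ∃ p, |p - E| < δ ∧ 0 < φ p := by
  intro δ hδ
  refine ⟨min b (E + δ / 2), ?_, h _ (lt_min hEb (by linarith)) (min_le_left _ _)⟩
  rw [abs_of_pos (by have := lt_min hEb (show E < E + δ / 2 by linarith); linarith)]
  have := min_le_right b (E + δ / 2)
  linarith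

theorem near_L {φ : ℝ → ℝ} {E b : ℝ} (hEb : b < E) (h : ∀ t, b ≤ t → t < E → 0 < φ t) :
    ∀ δ > 0, ∃ p, |p - E| < δ ∧ 0 < φ p := by
  intro δ hδ
  refine ⟨max b (E - δ / 2), ?_, h _ (le_max_left _ _) (max_lt hEb (by linarith))⟩
  rw [abs_of_neg (by have := max_lt hEb (show E - δ / 2 < E by linarith); linarith)]
  have := le_max_right b (E - δ / 2)
  linarith

theorem sweep {φ : ℝ → ℝ} (hφ : Continuous φ) {s : ℝ} (hs : 0 < s)
    (hacc : ∀ δ > 0, ∃ c, 0 < c ∧ c < δ ∧ ∀ x, φ x = c → φ (x + s * c) = c)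
    {E : ℝ} (hE : φ E = 0) (hE' : ∀ δ > 0, ∃ p, |p - E| < δ ∧ 0 < φ p) :
    ∀ y, E ≤ y → φ y = 0 := by
  intro y hy
  by_contra hne
  have hEy : E < y := lt_of_le_of_ne hy fun h => hne (by rw [← h, hE])
  have hη : 0 < |φ y| := abs_pos.2 hne
  obtain ⟨δ, hδ, hδ'⟩ := Metric.continuous_iff.1 hφ y (|φ y| / 2) (by positivity)
  obtain ⟨p, hp1, hp2⟩ := hE' (y - E) (by linarith)
  obtain ⟨c, hc0, hc1, hc2⟩ := hacc (min (min (δ / s) (φ p)) (|φ y| / 2))
    (lt_min (lt_min (by positivity) hp2) (by positivity))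
  have hcδ : s * c < δ := by
    have : c < δ / s := lt_of_lt_of_le hc1 ((min_le_left _ _).trans (min_le_left _ _))
    rw [lt_div_iff₀ hs] at this
    linarith
  have hcp : c < φ p := lt_of_lt_of_le hc1 ((min_le_left _ _).trans (min_le_right _ _))
  have hcη : c < |φ y| / 2 := lt_of_lt_of_le hc1 (min_le_right _ _)
  obtain ⟨x, hx, hxc⟩ : ∃ x ∈ uIcc E p, φ x = c := by
    have := intermediate_value_uIcc (a := E) (b := p) (f := φ) hφ.continuousOn
    refine this ?_
    rw [hE, uIcc_of_le hp2.le]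
    exact ⟨hc0.le, hcp.le⟩
  have hxE : |x - E| ≤ |p - E| := abs_sub_left_of_mem_uIcc hx
  have hxy : x < y := by
    have := (abs_lt.1 (lt_of_le_of_lt hxE hp1)).2
    linarith
  have hit : ∀ n : ℕ, φ (x + n * (s * c)) = c := by
    intro n
    induction n with
    | zero => simpa using hxc
    | succ n ih =>
      have := hc2 _ ih
      have e : x + ((n + 1 : ℕ) : ℝ) * (s * c) = x + n * (s * c) + s * c := by
        push_cast; ring
      rw [e]
      exact this
  have hsc : 0 < s * c := by positivity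
  set n := ⌊(y - x) / (s * c)⌋₊ with hn
  have hn1 : (n : ℝ) * (s * c) ≤ y - x := by
    have := Nat.floor_le (show 0 ≤ (y - x) / (s * c) from div_nonneg (by linarith) hsc.le)
    rwa [le_div_iff₀ hsc] at this
  have hn2 : y - x < ((n : ℝ) + 1) * (s * c) := by
    have := Nat.lt_floor_add_one ((y - x) / (s * c))
    rwa [div_lt_iff₀ hsc] at this
  have hd : dist (x + n * (s * c)) y < δ := by
    rw [Real.dist_eq, abs_lt]
    constructor <;> nlinarith
  have h1 := hδ' _ hd
  rw [hit, Real.dist_eq] at h1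
  have h2 : |φ y| ≤ |c - φ y| + |c| := by
    have := abs_sub_abs_le_abs_sub (φ y) c
    rw [abs_sub_comm] at this
    linarith
  rw [abs_of_pos hc0] at h2
  linarith

theorem sweepL {φ : ℝ → ℝ} (hφ : Continuous φ) {s : ℝ} (hs : 0 < s)
    (hacc : ∀ δ > 0, ∃ c, 0 < c ∧ c < δ ∧ ∀ x, φ x = c → φ (x - s * c) = c)
    {E : ℝ} (hE : φ E = 0) (hE' : ∀ δ > 0, ∃ p, |p - E| < δ ∧ 0 < φ p) :
    ∀ y, y ≤ E → φ y = 0 := by
  intro y hy
  have := sweep (φ := fun x => φ (-x)) (hφ.comp continuous_neg) hs (E := -E)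
    (fun δ hδ => by
      obtain ⟨c, h1, h2, h3⟩ := hacc δ hδ
      refine ⟨c, h1, h2, fun x hx => ?_⟩
      show φ (-(x + s * c)) = c
      rw [show -(x + s * c) = -x - s * c by ring]
      exact h3 _ hx)
    (by simpa using hE)
    (fun δ hδ => by
      obtain ⟨p, h1, h2⟩ := hE' δ hδ
      refine ⟨-p, ?_, by simpa using h2⟩
      rw [show -p - -E = -(p - E) by ring, abs_neg]
      exact h1) (-y) (by linarith)
  simpa using this

theorem sign_const {φ : ℝ → ℝ} (hφ : Continuous φ) {ε : ℝ}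
    (h : ∀ x, 0 < x → x < ε → φ x ≠ 0) :
    (∀ x, 0 < x → x < ε → 0 < φ x) ∨ (∀ x, 0 < x → x < ε → φ x < 0) := by
  by_contra hcon
  push Not at hcon
  obtain ⟨⟨x, hx0, hxε, hx⟩, ⟨y, hy0, hyε, hy⟩⟩ := hcon
  have := intermediate_value_uIcc (a := x) (b := y) (f := φ) hφ.continuousOn
  have h0 : (0 : ℝ) ∈ uIcc (φ x) (φ y) := by
    rw [uIcc_of_le (hx.trans hy)]
    exact ⟨hx, hy⟩
  obtain ⟨t, ht, hte⟩ := this h0
  rw [mem_uIcc] at ht
  refine h t ?_ ?_ hte
  · rcases ht with ht | ht <;> linarith [ht.1]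
  · rcases ht with ht | ht <;> linarith [ht.2]

/-! ### One sided linearity -/

theorem Sol.ext_right {f : ℝ → ℝ} (H : Sol f) {α c : ℝ} (hα : 0 < α) (hc : 0 < c)
    (h : ∀ x, 0 ≤ x → x ≤ c → f x = α * x) : ∀ x, 0 ≤ x → f x = α * x := by
  set lam := min (1 + α) ((1 + α) / α) with hlam
  have hlam1 : 1 < lam := by
    refine lt_min (by linarith) ?_
    rw [lt_div_iff₀ hα]; linarith
  have key : ∀ n : ℕ, ∀ x, 0 ≤ x → x ≤ lam ^ n * c → f x = α * x := by
    intro n
    induction n with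
    | zero => intro x h0 h1; exact h x h0 (by simpa using h1)
    | succ n ih =>
      intro x h0 h1
      have hp : 0 < lam ^ n * c := by positivity
      have h2 : x ≤ lam * (lam ^ n * c) := by
        calc x ≤ lam ^ (n + 1) * c := h1
          _ = _ := by ring
      have h1a : (0 : ℝ) < 1 + α := by linarith
      have hy1 : x / (1 + α) ≤ lam ^ n * c := by
        rw [div_le_iff₀ h1a]
        have : lam ≤ 1 + α := min_le_left _ _
        nlinarith
      have hy2 : α * (x / (1 + α)) ≤ lam ^ n * c := by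
        have h3 : lam * α ≤ 1 + α := by
          have : lam ≤ (1 + α) / α := min_le_right _ _
          rwa [le_div_iff₀ hα] at this
        rw [mul_div_assoc', div_le_iff₀ h1a]
        nlinarith
      have hy0 : 0 ≤ x / (1 + α) := by positivity
      have e1 := H.eq (x / (1 + α))
      rw [ih _ hy0 hy1, ih _ (by positivity) hy2] at e1
      have e2 : x / (1 + α) + α * (x / (1 + α)) = x := by field_simp
      rw [e2] at e1
      rw [e1]
      have e3 : α * (x / (1 + α)) + α * (α * (x / (1 + α))) =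
        α * (x / (1 + α) + α * (x / (1 + α))) := by ring
      rw [e3, e2]
  intro x hx
  obtain ⟨n, hn⟩ := pow_unbounded_of_one_lt (x / c) hlam1
  refine key n x hx ?_
  rw [div_lt_iff₀ hc] at hn
  exact hn.le

theorem Sol.lin_right {f : ℝ → ℝ} (H : Sol f) {ε : ℝ} (hε : 0 < ε)
    (hpos : ∀ x, 0 < x → x < ε → 0 < f x) : ∃ α, 0 < α ∧ ∀ x, 0 ≤ x → f x = α * x := by
  have P : PE (fun x => x + f x) f 1 ε (fun x => 0 < x) :=
    { cK := continuous_id.add H.cont
      cq := H.cont
      comm := fun x => H.eq x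
      K0 := by simp [H.zero]
      q0 := H.zero
      sq := one_mul 1
      ne := fun hx => ne_of_gt hx
      side := fun {x y} hx h => by
        rw [one_mul] at h
        exact (mul_pos_iff_of_pos_left hx).1 h
      eps := hε
      form := fun {x} _ _ => by ring
      pos := fun {x} hx hxε => by
        rw [one_mul]
        exact mul_pos hx (hpos x hx (by rwa [abs_of_pos hx] at hxε)) }
  obtain ⟨ε', hε', hlin⟩ := P.linear
  set x0 := min ε ε' / 2 with hx0
  have hm : 0 < min ε ε' := lt_min hε hε'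
  have hx0pos : 0 < x0 := by positivity
  have hx0ε : x0 < ε := by have := min_le_left ε ε'; linarith
  have hx0ε' : x0 < ε' := by have := min_le_right ε ε'; linarith
  have hfx0 := hpos x0 hx0pos hx0ε
  refine ⟨f x0 / x0, by positivity, H.ext_right (by positivity) hx0pos fun x h0 h1 => ?_⟩
  rcases lt_or_eq_of_le h0 with h | h
  · have := hlin x x0 h (by rw [abs_of_pos h]; linarith) (by rw [abs_of_pos hx0pos]; exact hx0ε')
      (mul_pos h hx0pos)
    field_simp
    linarith
  · rw [← h, H.zero, mul_zero]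

/-- if `f x = β x` for `x ≤ 0` with `β ≥ 0`, then `f ≥ 0` on the right -/
theorem Sol.nonneg_of_left {f : ℝ → ℝ} (H : Sol f) {β : ℝ} (hβ : 0 ≤ β)
    (h : ∀ x, x ≤ 0 → f x = β * x) : ∀ x, 0 < x → 0 ≤ f x := by
  intro x hx
  by_contra hcon
  push Not at hcon
  have key : ∀ n : ℕ, ∃ y, f y ≤ f x ∧ f y - β * y = f x - β * x ∧ y ≤ x + n * f x := by
    intro n
    induction n with
    | zero => exact ⟨x, le_rfl, rfl, by simp⟩
    | succ n ih =>
      obtain ⟨y, h1, h2, h3⟩ := ih
      have h4 := H.eq y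
      rw [h (f y) (by linarith)] at h4
      refine ⟨y + f y, ?_, ?_, ?_⟩
      · rw [h4]; nlinarith
      · rw [h4]; linarith
      · push_cast; nlinarith
  obtain ⟨n, hn⟩ := exists_nat_gt (x / (-f x))
  rw [div_lt_iff₀ (by linarith)] at hn
  obtain ⟨y, h1, h2, h3⟩ := key n
  rw [h y (by nlinarith)] at h2
  nlinarith

/-- zeros of `f` do not accumulate at `0+` if `f` takes a positive value -/
theorem Sol.no_acc {f : ℝ → ℝ} (H : Sol f) {x : ℝ} (hx : 0 < f x) :
    ∃ ε > 0, ∀ y, 0 < y → y < ε → f y ≠ 0 := by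
  by_contra hcon
  push Not at hcon
  have hacc : ∀ δ > 0, ∃ c, 0 < c ∧ c < δ ∧ ∀ x, f x = c → f (x + 1 * c) = c := by
    intro δ hδ
    obtain ⟨c, h1, h2, h3⟩ := hcon δ hδ
    refine ⟨c, h1, h2, fun x hxc => ?_⟩
    have := H.eq x
    rw [hxc, h3, add_zero] at this
    rwa [one_mul]
  rcases lt_trichotomy x 0 with h | h | h
  · obtain ⟨E, h1, h2, h3, h4⟩ := endL H.cont h H.zero hx
    have h5 := sweep H.cont one_pos hacc h3 (near_L h2 h4)
    have h6 := H.mir.nonneg_of_left (β := 0) le_rfl (fun y hy => by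
      show -f (-y) = 0 * y
      rw [h5 (-y) (by linarith)]; simp) (-x) (by linarith)
    have h7 : 0 ≤ -f (- -x) := h6
    rw [neg_neg] at h7
    linarith
  · rw [h, H.zero] at hx
    exact lt_irrefl _ hx
  · obtain ⟨E, h1, h2, h3, h4⟩ := endR H.cont h H.zero hx
    have h5 := sweep H.cont one_pos hacc h3 (near_R h2 h4) x h2.le
    linarith

theorem Sol.right_of_nonneg {f : ℝ → ℝ} (H : Sol f) (hP : ∀ x, 0 < x → 0 ≤ f x) :
    ∃ a, 0 ≤ a ∧ ∀ x, 0 ≤ x → f x = a * x := by
  by_cases hex : ∃ x, 0 < x ∧ 0 < f x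
  · obtain ⟨x, _, hx⟩ := hex
    obtain ⟨ε, hε, hne⟩ := H.no_acc hx
    obtain ⟨α, hα, h⟩ := H.lin_right hε fun y h0 h1 => lt_of_le_of_ne (hP y h0) (hne y h0 h1).symm
    exact ⟨α, hα.le, h⟩
  · push Not at hex
    refine ⟨0, le_rfl, fun x hx => ?_⟩
    rcases lt_or_eq_of_le hx with h | h
    · rw [zero_mul]; exact le_antisymm (hex x h) (hP x h)
    · rw [← h, H.zero, mul_zero]

/-! ### The sign flipping case -/

/-- `f` flips the sign near `0` -/
structure Flip (f : ℝ → ℝ) (ε : ℝ) : Prop extends Sol f where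
  eps : 0 < ε
  flip : ∀ x, x ≠ 0 → |x| < ε → x * f x < 0

theorem Flip.mirror {f : ℝ → ℝ} {ε : ℝ} (H : Flip f ε) : Flip (FE.mir f) ε := by
  refine ⟨H.toSol.mir, H.eps, fun x hx hxε => ?_⟩
  have := H.flip (-x) (neg_ne_zero.2 hx) (by rwa [abs_neg])
  show x * -f (-x) < 0
  linarith

theorem Sol.exists_flip {f : ℝ → ℝ} (H : Sol f) {x : ℝ} (hx0 : 0 < x) (hx : f x < 0) :
    ∃ ε, Flip f ε := by
  have hF : 0 < FE.mir f (-x) := by
    show 0 < -f (- -x)
    rw [neg_neg]; linarith
  obtain ⟨ε₁, hε₁, hne₁⟩ := H.mir.no_acc hF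
  have hneg : ∀ y, 0 < y → y < ε₁ → FE.mir f y < 0 := by
    rcases sign_const H.mir.cont hne₁ with h | h
    · exfalso
      obtain ⟨β, hβ, hlin⟩ := H.mir.lin_right hε₁ h
      have := H.nonneg_of_left hβ.le (fun y hy => by
        have h1 : -f (- -y) = β * -y := hlin (-y) (by linarith)
        rw [neg_neg] at h1
        linarith) x hx0
      linarith
    · exact h
  have hfp : 0 < f (-(ε₁ / 2)) := by
    have : -f (-(ε₁ / 2)) < 0 := hneg (ε₁ / 2) (by linarith) (by linarith)
    linarith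
  obtain ⟨ε₂, hε₂, hne₂⟩ := H.no_acc hfp
  have hneg' : ∀ y, 0 < y → y < ε₂ → f y < 0 := by
    rcases sign_const H.cont hne₂ with h | h
    · exfalso
      obtain ⟨α, hα, hlin⟩ := H.lin_right hε₂ h
      have := hlin x hx0.le
      have : 0 < α * x := by positivity
      linarith
    · exact h
  refine ⟨min ε₁ ε₂, H, lt_min hε₁ hε₂, fun y hy hyε => ?_⟩
  rcases lt_or_gt_of_ne hy with h | h
  · rw [abs_of_neg h] at hyε
    have h1 : -f (- -y) < 0 := hneg (-y) (by linarith) (lt_of_lt_of_le hyε (min_le_left _ _))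
    rw [neg_neg] at h1
    exact mul_neg_of_neg_of_pos h (by linarith)
  · rw [abs_of_pos h] at hyε
    exact mul_neg_of_pos_of_neg h (hneg' y h (lt_of_lt_of_le hyε (min_le_right _ _)))

theorem Sol.neg_mem {f : ℝ → ℝ} (H : Sol f) {y : ℝ} (hy : f y = -y) : f (-y) = y := by
  have h1 := H.eq y
  rw [hy, add_neg_cancel, H.zero] at h1
  linarith

theorem Flip.acc_le {f : ℝ → ℝ} {ε : ℝ} (H : Flip f ε)
    (hacc : ∀ δ > 0, ∃ y, y ≠ 0 ∧ |y| < δ ∧ f y = -y) : ∀ x, x + f x ≤ 0 := by
  intro x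
  by_contra hcon
  push Not at hcon
  have hS := H.toSol
  have hg : Continuous fun x => x + f x := continuous_id.add H.cont
  have hg0 : (fun x => x + f x) 0 = 0 := by simp [hS.zero]
  have hacc' : ∀ δ > 0, ∃ c, 0 < c ∧ c < δ ∧ f c = -c := by
    intro δ hδ
    obtain ⟨y, hy, hyδ, hfy⟩ := hacc δ hδ
    rcases lt_or_gt_of_ne hy with h | h
    · rw [abs_of_neg h] at hyδ
      exact ⟨-y, by linarith, hyδ, by rw [hS.neg_mem hfy]; ring⟩
    · rw [abs_of_pos h] at hyδ
      exact ⟨y, h, hyδ, hfy⟩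
  have hsw : ∀ δ > 0, ∃ c, 0 < c ∧ c < δ ∧
      ∀ x, (fun x => x + f x) x = c → (fun x => x + f x) (x - 2 * c) = c := by
    intro δ hδ
    obtain ⟨c, h1, h2, h3⟩ := hacc' δ hδ
    refine ⟨c, h1, h2, fun x hx => ?_⟩
    have hx' : x + f x = c := hx
    show x - 2 * c + f (x - 2 * c) = c
    have e1 := H.eq x
    rw [hx', h3] at e1
    have e2 : f (f x) = x - 2 * c := by linarith
    have e3 := H.eq (f x)
    have e4 : f x + f (f x) = -c := by linarith
    rw [e4, hS.neg_mem h3, e2] at e3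
    linarith
  rcases lt_trichotomy x 0 with h | h | h
  · obtain ⟨E, h1, h2, h3, h4⟩ := endL hg h hg0 hcon
    have h5 := sweepL hg two_pos hsw h3 (near_L h2 h4) x h2.le
    have h6 : x + f x = 0 := h5
    linarith
  · rw [h, hS.zero, add_zero] at hcon
    exact lt_irrefl _ hcon
  · obtain ⟨E, h1, h2, h3, h4⟩ := endR hg h hg0 hcon
    have h5 : ∀ y, y ≤ E → y + f y = 0 := sweepL hg two_pos hsw h3 (near_R h2 h4)
    have h3' : E + f E = 0 := h3
    have ev1 : ∀ᶠ y in 𝓝[>] E, y + f y < ε := by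
      have hc : Tendsto (fun y => y + f y) (𝓝[>] E) (𝓝 (E + f E)) :=
        (hg.tendsto E).mono_left nhdsWithin_le_nhds
      rw [h3'] at hc
      exact hc.eventually_lt_const H.eps
    have ev2 : ∀ᶠ y in 𝓝[>] E, f y < 0 := by
      rcases lt_or_eq_of_le h1 with hE | hE
      · have hc : Tendsto f (𝓝[>] E) (𝓝 (f E)) :=
          (H.cont.tendsto E).mono_left nhdsWithin_le_nhds
        exact hc.eventually_lt_const (by linarith)
      · have hm : Ioo E ε ∈ 𝓝[>] E := Ioo_mem_nhdsGT (by rw [← hE]; exact H.eps)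
        filter_upwards [hm] with y hy
        have hy0 : 0 < y := by rw [hE]; exact hy.1
        have := H.flip y hy0.ne' (by rw [abs_of_pos hy0]; exact hy.2)
        exact neg_of_mul_neg_right this hy0.le
    have ev3 : ∀ᶠ y in 𝓝[>] E, y ∈ Ioo E x := Ioo_mem_nhdsGT h2
    obtain ⟨y, hy1, hy2, hy3⟩ := (ev1.and (ev2.and ev3)).exists
    have hgy : 0 < y + f y := h4 y hy3.1 hy3.2.le
    have e1 := H.eq y
    have e2 := h5 (f y) (by linarith)
    have e3 := H.flip (y + f y) hgy.ne' (by rw [abs_of_pos hgy]; exact hy1)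
    rw [e1, e2, mul_zero] at e3
    exact lt_irrefl _ e3

theorem Flip.acc {f : ℝ → ℝ} {ε : ℝ} (H : Flip f ε)
    (hacc : ∀ δ > 0, ∃ y, y ≠ 0 ∧ |y| < δ ∧ f y = -y) : ∀ x, f x = -x := by
  intro x
  have h1 := H.acc_le hacc x
  have h2 : -x + -f (- -x) ≤ 0 := H.mirror.acc_le (fun δ hδ => by
    obtain ⟨y, hy, hyδ, hfy⟩ := hacc δ hδ
    refine ⟨-y, neg_ne_zero.2 hy, by rwa [abs_neg], ?_⟩
    show -f (- -y) = - -y
    rw [neg_neg, hfy, neg_neg]) (-x)
  rw [neg_neg] at h2
  linarith

theorem Sol.slopes {f : ℝ → ℝ} (H : Sol f) {ε a b : ℝ} (hε : 0 < ε)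
    (ha : ∀ x, 0 < x → x < ε → f x = a * x) (hb : ∀ x, -ε < x → x < 0 → f x = b * x)
    (ha0 : a < 0) (hab : 0 < 1 + a ∨ 1 + a < 0) : a = b := by
  set x := ε / (2 * (1 - a)) with hx
  have h1a : 0 < 1 - a := by linarith
  have hx0 : 0 < x := by positivity
  have hxe : (1 - a) * x = ε / 2 := by rw [hx]; field_simp
  have hax : a * x < 0 := mul_neg_of_neg_of_pos ha0 hx0
  have h1 : x < ε := by nlinarith
  have h2 : -ε < a * x := by nlinarith
  have e := H.eq x
  rw [ha x hx0 h1, hb (a * x) h2 hax] at e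
  rcases hab with h | h
  · have h3 : 0 < x + a * x := by nlinarith
    rw [ha _ h3 (by linarith)] at e
    have e2 : (a * x) * (a - b) = 0 := by linear_combination e
    rcases mul_eq_zero.1 e2 with h4 | h4
    · exact absurd h4 hax.ne
    · linarith
  · have h3 : x + a * x < 0 := by nlinarith
    rw [hb _ (by nlinarith) h3] at e
    have e2 : x * (a - b) = 0 := by linear_combination -e
    rcases mul_eq_zero.1 e2 with h4 | h4
    · exact absurd h4 hx0.ne'
    · linarith

theorem Sol.ext_gt {f : ℝ → ℝ} (H : Sol f) {a c : ℝ} (ha : a < -1) (hc : 0 < c)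
    (h : ∀ x, |x| ≤ c → f x = a * x) : ∀ x, f x = a * x := by
  set lam := min (-a) (-a / (-a - 1)) with hlam
  have hlam1 : 1 < lam := by
    refine lt_min (by linarith) ?_
    rw [lt_div_iff₀ (by linarith)]; linarith
  have key : ∀ n : ℕ, ∀ x, |x| ≤ lam ^ n * c → f x = a * x := by
    intro n
    induction n with
    | zero => intro x h1; exact h x (by simpa using h1)
    | succ n ih =>
      intro x h1
      have hp : 0 < lam ^ n * c := by positivity
      have h2 : |x| ≤ lam * (lam ^ n * c) := by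
        calc |x| ≤ lam ^ (n + 1) * c := h1
          _ = _ := by ring
      have hna : (0 : ℝ) < -a := by linarith
      have hna1 : (0 : ℝ) < -a - 1 := by linarith
      have ha0 : a ≠ 0 := by linarith
      have hy1 : |x / a| ≤ lam ^ n * c := by
        rw [abs_div, abs_of_neg (by linarith : a < 0), div_le_iff₀ hna]
        have : lam ≤ -a := min_le_left _ _
        nlinarith
      have hy2 : |(1 + a) * (x / a)| ≤ lam ^ n * c := by
        have h3 : lam * (-a - 1) ≤ -a := by
          have : lam ≤ -a / (-a - 1) := min_le_right _ _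
          rwa [le_div_iff₀ hna1] at this
        rw [abs_mul, abs_div, abs_of_neg (by linarith : a < 0), abs_of_neg (by linarith : 1 + a < 0),
          mul_div_assoc', div_le_iff₀ hna]
        nlinarith
      have e1 := H.eq (x / a)
      rw [ih _ hy1] at e1
      have e2 : x / a + a * (x / a) = (1 + a) * (x / a) := by ring
      have e3 : a * (x / a) = x := by field_simp
      rw [e2, ih _ hy2, e3] at e1
      have e4 : a * ((1 + a) * (x / a)) = (1 + a) * (a * (x / a)) := by ring
      rw [e4, e3] at e1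
      linarith
  intro x
  obtain ⟨n, hn⟩ := pow_unbounded_of_one_lt (|x| / c) hlam1
  refine key n x ?_
  rw [div_lt_iff₀ hc] at hn
  exact hn.le

theorem Sol.ext_lt {f : ℝ → ℝ} (H : Sol f) {a c : ℝ} (ha : a < 0) (ha1 : -1 < a) (hc : 0 < c)
    (h : ∀ x, |x| ≤ c → f x = a * x) : ∀ x, f x = a * x := by
  by_contra hcon
  push Not at hcon
  obtain ⟨x1, hx1⟩ := hcon
  set Bad : Set ℝ := {x | f x ≠ a * x} with hBad
  have hne : (closure Bad).Nonempty := ⟨x1, subset_closure hx1⟩
  obtain ⟨y, hy, hyd⟩ := isClosed_closure.exists_infDist_eq_dist hne (0 : ℝ)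
  rw [Real.dist_eq, zero_sub, abs_neg] at hyd
  have hcy : c ≤ |y| := by
    by_contra hlt
    push Not at hlt
    rw [mem_closure_iff] at hy
    obtain ⟨z, hz1, hz2⟩ := hy (Ioo (-c) c) isOpen_Ioo (abs_lt.1 hlt)
    exact hz2 (h z (abs_lt.2 hz1).le)
  have hy0 : 0 < |y| := by linarith
  have hgood : ∀ x, |x| < |y| → f x = a * x := by
    intro x hx
    by_contra hxb
    have h1 : Metric.infDist 0 (closure Bad) ≤ dist 0 x :=
      Metric.infDist_le_dist_of_mem (subset_closure hxb)
    rw [hyd, Real.dist_eq, zero_sub, abs_neg] at h1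
    linarith
  have hfy : f y = a * y := by
    have hc1 : Tendsto (fun t : ℝ => f (t * y)) (𝓝[<] 1) (𝓝 (f (1 * y))) :=
      ((H.cont.comp (continuous_id.mul continuous_const)).tendsto 1).mono_left nhdsWithin_le_nhds
    have hc2 : Tendsto (fun t : ℝ => a * (t * y)) (𝓝[<] 1) (𝓝 (a * (1 * y))) :=
      ((continuous_const.mul (continuous_id.mul continuous_const)).tendsto 1).mono_left
        nhdsWithin_le_nhds
    have heq : (fun t : ℝ => f (t * y)) =ᶠ[𝓝[<] 1] fun t : ℝ => a * (t * y) := by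
      filter_upwards [Ioo_mem_nhdsLT (show (0 : ℝ) < 1 by norm_num)] with t ht
      refine hgood _ ?_
      rw [abs_mul, abs_of_pos ht.1]
      nlinarith [ht.2]
    have := tendsto_nhds_unique (hc1.congr' heq) hc2
    simpa using this
  have ev1 : ∀ᶠ x in 𝓝 y, |f x| < |y| := by
    have : |f y| < |y| := by
      rw [hfy, abs_mul, abs_of_neg ha]; nlinarith
    exact (H.cont.abs.tendsto y).eventually_lt_const this
  have ev2 : ∀ᶠ x in 𝓝 y, |x + f x| < |y| := by
    have : |y + f y| < |y| := by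
      rw [hfy, show y + a * y = (1 + a) * y by ring, abs_mul, abs_of_pos (by linarith)]; nlinarith
    exact ((continuous_id.add H.cont).abs.tendsto y).eventually_lt_const this
  have ev := ev1.and ev2
  rw [Metric.eventually_nhds_iff] at ev
  obtain ⟨δ, hδ, hball⟩ := ev
  rw [Metric.mem_closure_iff] at hy
  obtain ⟨z, hz1, hz2⟩ := hy δ hδ
  rw [dist_comm] at hz2
  obtain ⟨h1, h2⟩ := hball hz2
  refine hz1 ?_
  have e := H.eq z
  rw [hgood _ h1, hgood _ h2] at e
  linarith

theorem Flip.linear {f : ℝ → ℝ} {ε : ℝ} (H : Flip f ε) : ∃ a, ∀ x, f x = a * x := by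
  have hS := H.toSol
  by_cases hacc : ∀ δ > 0, ∃ y, y ≠ 0 ∧ |y| < δ ∧ f y = -y
  · exact ⟨-1, fun x => by rw [H.acc hacc x]; ring⟩
  push Not at hacc
  obtain ⟨δ, hδ, hne⟩ := hacc
  have hg : Continuous fun x => x + f x := continuous_id.add H.cont
  set ε₁ := min ε δ with hε₁
  have hε₁0 : 0 < ε₁ := lt_min H.eps hδ
  have hR : ∀ x, 0 < x → x < ε₁ → x + f x ≠ 0 := by
    intro x h0 h1 h2
    exact hne x h0.ne' (by rw [abs_of_pos h0]; exact lt_of_lt_of_le h1 (min_le_right _ _))
      (by linarith)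
  have hL : ∀ x, 0 < x → x < ε₁ → -x + f (-x) ≠ 0 := by
    intro x h0 h1 h2
    exact hne (-x) (by linarith)
      (by rw [abs_neg, abs_of_pos h0]; exact lt_of_lt_of_le h1 (min_le_right _ _)) (by linarith)
  have hfR : ∀ x, 0 < x → x < ε₁ → f x < 0 := fun x h0 h1 =>
    neg_of_mul_neg_right (H.flip x h0.ne' (by
      rw [abs_of_pos h0]; exact lt_of_lt_of_le h1 (min_le_left _ _))) h0.le
  have hfL : ∀ x, -ε₁ < x → x < 0 → 0 < f x := fun x h0 h1 =>
    pos_of_mul_neg_right (H.flip x h1.ne (by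
      rw [abs_of_neg h1]
      exact lt_of_lt_of_le (by linarith : -x < ε₁) (min_le_left _ _))) h1.le
  -- a small positive point
  have hsmall : ∃ x, 0 < x ∧ x < ε₁ ∧ |f x| < ε₁ ∧ |x + f x| < ε₁ := by
    have ev1 : ∀ᶠ x in 𝓝[>] (0 : ℝ), |f x| < ε₁ := by
      have hc : Tendsto (fun x => |f x|) (𝓝[>] 0) (𝓝 |f 0|) :=
        (H.cont.abs.tendsto 0).mono_left nhdsWithin_le_nhds
      rw [hS.zero, abs_zero] at hc
      exact hc.eventually_lt_const hε₁0
    have ev2 : ∀ᶠ x in 𝓝[>] (0 : ℝ), |x + f x| < ε₁ := by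
      have hc : Tendsto (fun x => |x + f x|) (𝓝[>] 0) (𝓝 |0 + f 0|) :=
        (hg.abs.tendsto 0).mono_left nhdsWithin_le_nhds
      rw [hS.zero, add_zero, abs_zero] at hc
      exact hc.eventually_lt_const hε₁0
    have ev3 : ∀ᶠ x in 𝓝[>] (0 : ℝ), x ∈ Ioo 0 ε₁ := Ioo_mem_nhdsGT hε₁0
    obtain ⟨x, h1, h2, h3⟩ := (ev1.and (ev2.and ev3)).exists
    exact ⟨x, h3.1, h3.2, h1, h2⟩
  obtain ⟨xs, hxs0, hxs1, hxs2, hxs3⟩ := hsmall
  have hfxs := hfR xs hxs0 hxs1
  rcases sign_const hg hR with hr | hr <;>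
    rcases sign_const (hg.comp continuous_neg) hL with hl | hl
  · -- g > 0 on the right, g > 0 on the left
    exfalso
    have h1 : 0 < xs + f xs := hr xs hxs0 hxs1
    have h2 : f (xs + f xs) < 0 := hfR _ h1 (by rwa [abs_of_pos h1] at hxs3)
    have h3 : 0 < - -f xs + f (- -f xs) :=
      hl (-f xs) (by linarith) (by rwa [abs_of_neg hfxs] at hxs2)
    rw [neg_neg] at h3
    have := H.eq xs
    linarith
  · -- g > 0 on the right, g < 0 on the left
    have N : NE f (fun x => x + f x) ε₁ :=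
      { cf := H.cont
        cg := hg
        comm := fun x => H.eq x
        f0 := hS.zero
        eps := hε₁0
        sum := fun _ => rfl
        hf := fun x hx hxε => H.flip x hx (lt_of_lt_of_le hxε (min_le_left _ _))
        hg := fun x hx hxε => by
          rcases lt_or_gt_of_ne hx with h | h
          · rw [abs_of_neg h] at hxε
            have h1 : - -x + f (- -x) < 0 := hl (-x) (by linarith) hxε
            rw [neg_neg] at h1
            exact mul_pos_of_neg_of_neg h h1
          · rw [abs_of_pos h] at hxε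
            exact mul_pos h (hr x h hxε) }
    set x0 := ε₁ / 2 with hx0
    have hx00 : 0 < x0 := by positivity
    have hx01 : x0 < ε₁ := by linarith
    have hfx0 := hfR x0 hx00 hx01
    have hgx0 : 0 < x0 + f x0 := hr x0 hx00 hx01
    have ha : ∀ x, 0 < x → x < ε₁ → f x = f x0 / x0 * x := by
      intro x h0 h1
      have := N.linear (x := x) (y := x0) (by rwa [abs_of_pos h0]) (by rwa [abs_of_pos hx00])
        (mul_pos h0 hx00)
      field_simp
      linarith
    have hb : ∀ x, -ε₁ < x → x < 0 → f x = f (-x0) / (-x0) * x := by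
      intro x h0 h1
      have := N.linear (x := x) (y := -x0) (by rw [abs_of_neg h1]; linarith)
        (by rwa [abs_neg, abs_of_pos hx00]) (by nlinarith)
      field_simp
      linarith
    have haneg : f x0 / x0 < 0 := div_neg_of_neg_of_pos hfx0 hx00
    have ha1 : -1 < f x0 / x0 := by
      rw [lt_div_iff₀ hx00]; linarith
    have hsl := hS.slopes hε₁0 ha hb haneg (Or.inl (by linarith))
    refine ⟨f x0 / x0, hS.ext_lt haneg ha1 hx00 fun x hx => ?_⟩
    have hx' := abs_le.1 hx
    rcases lt_trichotomy x 0 with h | h | h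
    · rw [hsl]; exact hb x (by linarith [hx'.1]) h
    · rw [h, hS.zero, mul_zero]
    · exact ha x h (by linarith [hx'.2])
  · -- g < 0 on the right, g > 0 on the left
    have P : PE f (fun x => x + f x) (-1) ε₁ (fun x => x ≠ 0) :=
      { cK := H.cont
        cq := hg
        comm := fun x => (H.eq x).symm
        K0 := hS.zero
        q0 := by simp [hS.zero]
        sq := by norm_num
        ne := fun hx => hx
        side := fun {x y} _ h hy => by rw [hy] at h; simp at h
        eps := hε₁0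
        form := fun {x} _ _ => by ring
        pos := fun {x} hx hxε => by
          rcases lt_or_gt_of_ne hx with h | h
          · rw [abs_of_neg h] at hxε
            have h1 : 0 < - -x + f (- -x) := hl (-x) (by linarith) hxε
            rw [neg_neg] at h1
            nlinarith
          · rw [abs_of_pos h] at hxε
            have h1 : x + f x < 0 := hr x h hxε
            nlinarith }
    obtain ⟨ε', hε', hlin⟩ := P.linear
    set ε₂ := min ε₁ ε' with hε₂
    have hε₂0 : 0 < ε₂ := lt_min hε₁0 hε'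
    have h21 : ε₂ ≤ ε₁ := min_le_left _ _
    have h2' : ε₂ ≤ ε' := min_le_right _ _
    set x0 := ε₂ / 2 with hx0
    have hx00 : 0 < x0 := by positivity
    have hx01 : x0 < ε₂ := by linarith
    have hgx0 : x0 + f x0 < 0 := hr x0 hx00 (by linarith)
    have ha : ∀ x, 0 < x → x < ε₂ → f x = f x0 / x0 * x := by
      intro x h0 h1
      have : (x + f x) * x0 = (x0 + f x0) * x :=
        hlin x x0 h0.ne' (by rw [abs_of_pos h0]; linarith) (by rw [abs_of_pos hx00]; linarith)
        (mul_pos h0 hx00)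
      field_simp
      linarith
    have hb : ∀ x, -ε₂ < x → x < 0 → f x = f (-x0) / (-x0) * x := by
      intro x h0 h1
      have : (x + f x) * -x0 = (-x0 + f (-x0)) * x :=
        hlin x (-x0) h1.ne (by rw [abs_of_neg h1]; linarith)
        (by rw [abs_neg, abs_of_pos hx00]; linarith) (by nlinarith)
      field_simp
      linarith
    have ha1 : f x0 / x0 < -1 := by
      rw [div_lt_iff₀ hx00]; linarith
    have hsl := hS.slopes hε₂0 ha hb (by linarith) (Or.inr (by linarith))
    refine ⟨f x0 / x0, hS.ext_gt ha1 hx00 fun x hx => ?_⟩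
    have hx' := abs_le.1 hx
    rcases lt_trichotomy x 0 with h | h | h
    · rw [hsl]; exact hb x (by linarith [hx'.1]) h
    · rw [h, hS.zero, mul_zero]
    · exact ha x h (by linarith [hx'.2])
  · -- g < 0 on the right, g < 0 on the left
    exfalso
    have h1 : xs + f xs < 0 := hr xs hxs0 hxs1
    have h2 : 0 < f (xs + f xs) := hfL _ (by rw [abs_of_neg h1] at hxs3; linarith) h1
    have h3 : - -f xs + f (- -f xs) < 0 :=
      hl (-f xs) (by linarith) (by rwa [abs_of_neg hfxs] at hxs2)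
    rw [neg_neg] at h3
    have := H.eq xs
    linarith

/-! ### The classification -/

theorem classification (f : ℝ → ℝ) (hf : Continuous f) :
    (∀ x, f (x + f x) = f x + f (f x)) ↔
      ∃ a b : ℝ, (a = b ∨ (0 ≤ a ∧ 0 ≤ b)) ∧ ∀ x, f x = if 0 ≤ x then a * x else b * x := by
  constructor
  · intro h
    have H : Sol f := ⟨hf, h⟩
    by_cases hP : ∀ x, 0 < x → 0 ≤ f x
    · by_cases hQ : ∀ x, x < 0 → f x ≤ 0
      · obtain ⟨a, ha, hfa⟩ := H.right_of_nonneg hP
        obtain ⟨b, hb, hfb⟩ := H.mir.right_of_nonneg (fun x hx => by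
          show 0 ≤ -f (-x)
          linarith [hQ (-x) (by linarith)])
        refine ⟨a, b, Or.inr ⟨ha, hb⟩, fun x => ?_⟩
        split_ifs with hx
        · exact hfa x hx
        · have h1 : -f (- -x) = b * -x := hfb (-x) (by linarith)
          rw [neg_neg] at h1
          linarith
      · push Not at hQ
        obtain ⟨x, hx, hfx⟩ := hQ
        obtain ⟨ε, hfl⟩ := H.mir.exists_flip (x := -x) (by linarith) (by
          show -f (- -x) < 0
          rw [neg_neg]; linarith)
        obtain ⟨a, ha⟩ := hfl.linear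
        refine ⟨a, a, Or.inl rfl, fun y => ?_⟩
        have h1 : -f (- -y) = a * -y := ha (-y)
        rw [neg_neg] at h1
        have h2 : f y = a * y := by linarith
        rw [h2]
        split_ifs <;> rfl
    · push Not at hP
      obtain ⟨x, hx, hfx⟩ := hP
      obtain ⟨ε, hfl⟩ := H.exists_flip hx hfx
      obtain ⟨a, ha⟩ := hfl.linear
      refine ⟨a, a, Or.inl rfl, fun y => ?_⟩
      rw [ha y]
      split_ifs <;> rfl
  · rintro ⟨a, b, hab | ⟨ha, hb⟩, h⟩ x
    · subst hab
      have h' : ∀ x, f x = a * x := fun x => by rw [h x]; split_ifs <;> rfl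
      simp only [h']
      ring
    · have hR : ∀ x, 0 ≤ x → f x = a * x := fun x hx => by rw [h x, if_pos hx]
      have hL : ∀ x, x ≤ 0 → f x = b * x := fun x hx => by
        rcases lt_or_eq_of_le hx with h1 | h1
        · rw [h x, if_neg (not_le.2 h1)]
        · rw [h1, hR 0 le_rfl, mul_zero, mul_zero]
      rcases le_total 0 x with hx | hx
      · rw [hR x hx, hR (a * x) (by positivity), hR (x + a * x) (by positivity)]
        ring
      · rw [hL x hx, hL (b * x) (mul_nonpos_of_nonneg_of_nonpos hb hx),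
          hL (x + b * x) (by nlinarith)]
        ring

end Pool.Agent.X182.FE
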