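import Pool.Agent.X182.FE.Ratio

set_option autoImplicit false

/-!
# The contracting case
-/

open Filter Topology Set

namespace Pool.Agent.X182.FE

/-- `f` flips the sign, `g = id + f` preserves it -/
structure NE (f g : ℝ → ℝ) (ε : ℝ) : Prop where
  cf : Continuous f
  cg : Continuous g
  comm : ∀ x, f (g x) = g (f x)
  f0 : f 0 = 0
  eps : 0 < ε
  sum : ∀ x, g x = x + f x
  hf : ∀ x, x ≠ 0 → |x| < ε → x * f x < 0
  hg : ∀ x, x ≠ 0 → |x| < ε → 0 < x * g x

/-- good points -/
def GN (ε x : ℝ) : Prop := x ≠ 0 ∧ |x| < ε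

namespace NE

variable {f g : ℝ → ℝ} {ε : ℝ} (H : NE f g ε)

include H

theorem abs_sum {x : ℝ} (hx : GN ε x) : |x| = |f x| + |g x| := by
  have h1 := H.hf x hx.1 hx.2
  have h2 := H.hg x hx.1 hx.2
  have h3 := H.sum x
  rcases lt_or_gt_of_ne hx.1 with h | h
  · have h4 : 0 < f x := pos_of_mul_neg_right h1 h.le
    have h5 : g x < 0 := neg_of_mul_pos_right h2 h.le
    rw [abs_of_neg h, abs_of_pos h4, abs_of_neg h5]
    linarith
  · have h4 : f x < 0 := neg_of_mul_neg_right h1 h.le
    have h5 : 0 < g x := pos_of_mul_pos_right h2 h.le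
    rw [abs_of_pos h, abs_of_neg h4, abs_of_pos h5]
    linarith

theorem Gf {x : ℝ} (hx : GN ε x) : GN ε (f x) := by
  have h1 := H.hf x hx.1 hx.2
  have h2 := H.abs_sum hx
  refine ⟨fun h => by rw [h, mul_zero] at h1; exact lt_irrefl _ h1, ?_⟩
  linarith [abs_nonneg (g x), hx.2]

theorem Gg {x : ℝ} (hx : GN ε x) : GN ε (g x) := by
  have h1 := H.hg x hx.1 hx.2
  have h2 := H.abs_sum hx
  refine ⟨fun h => by rw [h, mul_zero] at h1; exact lt_irrefl _ h1, ?_⟩
  linarith [abs_nonneg (f x), hx.2]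

theorem Gfi (m : ℕ) {x : ℝ} (hx : GN ε x) : GN ε (f^[m] x) := by
  induction m with
  | zero => exact hx
  | succ m ih => rw [Function.iterate_succ_apply']; exact H.Gf ih

theorem Ggi (m : ℕ) {x : ℝ} (hx : GN ε x) : GN ε (g^[m] x) := by
  induction m with
  | zero => exact hx
  | succ m ih => rw [Function.iterate_succ_apply']; exact H.Gg ih

theorem commi (l m : ℕ) (x : ℝ) : f^[l] (g^[m] x) = g^[m] (f^[l] x) :=
  (show Function.Commute f g from H.comm).iterate_iterate l m x

theorem tri {x : ℝ} (hx : GN ε x) (k : ℕ) : Tri (fun i j => |f^[i] (g^[j] x)|) k := by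
  intro i j _
  have h1 := H.abs_sum (H.Gfi i (H.Ggi j hx))
  show |f^[i] (g^[j] x)| = |f^[i + 1] (g^[j] x)| + |f^[i] (g^[j + 1] x)|
  rw [h1, Function.iterate_succ_apply' f, Function.iterate_succ_apply' g]
  congr 2
  have := H.commi i 1 (g^[j] x)
  simpa using this.symm

theorem tri' {x : ℝ} (hx : GN ε x) (k : ℕ) : Tri (fun i j => |g^[i] (f^[j] x)|) k := by
  intro i j _
  have h1 := H.abs_sum (H.Ggi i (H.Gfi j hx))
  show |g^[i] (f^[j] x)| = |g^[i + 1] (f^[j] x)| + |g^[i] (f^[j + 1] x)|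
  rw [h1, Function.iterate_succ_apply' f, Function.iterate_succ_apply' g, add_comm]
  congr 2
  have := H.commi 1 i (f^[j] x)
  simpa using this

theorem fconv {x : ℝ} (hx : GN ε x) (m : ℕ) :
    |f^[m + 1] x| ^ 2 ≤ |f^[m] x| * |f^[m + 2] x| := by
  refine sq_le_of_lim fun n => ?_
  have h1 := tri_sq (H.tri (H.Gfi m hx) (n + 2)) (fun _ _ _ => abs_nonneg _)
  simp only [Function.iterate_zero, id_eq] at h1
  rw [← Function.iterate_add_apply, ← Function.iterate_add_apply, add_comm 1 m, add_comm 2 m] at h1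
  exact h1

theorem gconv {x : ℝ} (hx : GN ε x) (m : ℕ) :
    |g^[m + 1] x| ^ 2 ≤ |g^[m] x| * |g^[m + 2] x| := by
  refine sq_le_of_lim fun n => ?_
  have h1 := tri_sq (H.tri' (H.Ggi m hx) (n + 2)) (fun _ _ _ => abs_nonneg _)
  simp only [Function.iterate_zero, id_eq] at h1
  rw [← Function.iterate_add_apply, ← Function.iterate_add_apply, add_comm 1 m, add_comm 2 m] at h1
  exact h1

theorem g_side (n : ℕ) {x : ℝ} (hx : GN ε x) : 0 < x * g^[n] x := by
  induction n with
  | zero => exact mul_self_pos.2 hx.1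
  | succ n ih =>
    have hn := H.Ggi n hx
    have h1 := H.hg _ hn.1 hn.2
    rw [← Function.iterate_succ_apply' g] at h1
    have := mulpos (show 0 < (1 : ℝ) * (x * g^[n] x) by rw [one_mul]; exact ih)
      (show 0 < (1 : ℝ) * (g^[n] x * g^[n + 1] x) by rw [one_mul]; exact h1)
    simpa using this

theorem f_side (m : ℕ) {x : ℝ} (hx : GN ε x) : 0 < x * f^[2 * m] x := by
  induction m with
  | zero => exact mul_self_pos.2 hx.1
  | succ m ih =>
    have hn := H.Gfi (2 * m) hx
    have hn' := H.Gfi (2 * m + 1) hx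
    have h1 := H.hf _ hn.1 hn.2
    have h2 := H.hf _ hn'.1 hn'.2
    rw [← Function.iterate_succ_apply' f] at h1 h2
    have := mulpos (mulpos (show 0 < (1 : ℝ) * (x * f^[2 * m] x) by rw [one_mul]; exact ih)
      (show 0 < (-1 : ℝ) * (f^[2 * m] x * f^[2 * m + 1] x) by linarith))
      (show 0 < (-1 : ℝ) * (f^[2 * m + 1] x * f^[2 * m + 1 + 1] x) by linarith)
    have e : 2 * (m + 1) = 2 * m + 1 + 1 := by ring
    rw [e]
    linarith

theorem small_g {w : ℝ} (hw : GN ε w) {δ : ℝ} (hδ : 0 < δ) : ∃ n, |g^[n] w| < δ := by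
  by_contra hcon
  push Not at hcon
  set C : Set ℝ := {x | δ ≤ |x|} ∩ {x | |x| ≤ |w|} with hCdef
  have hC : IsCompact C := by
    refine (isCompact_Icc (a := -|w|) (b := |w|)).of_isClosed_subset ?_ ?_
    · exact (isClosed_le continuous_const continuous_abs).inter
        (isClosed_le continuous_abs continuous_const)
    · intro x hx
      exact abs_le.1 hx.2
  have hGC : ∀ x ∈ C, GN ε x := fun x hx => by
    refine ⟨fun h => ?_, lt_of_le_of_lt hx.2 hw.2⟩
    have : δ ≤ |x| := hx.1
    rw [h, abs_zero] at this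
    linarith
  have hle : ∀ n, |g^[n] w| ≤ |w| := by
    intro n
    induction n with
    | zero => exact le_rfl
    | succ n ih =>
      rw [Function.iterate_succ_apply']
      have := H.abs_sum (H.Ggi n hw)
      linarith [abs_nonneg (f (g^[n] w))]
  have hmem : ∀ n, g^[n] w ∈ C := fun n => ⟨hcon n, hle n⟩
  obtain ⟨x0, hx0, hmin⟩ := hC.exists_isMinOn ⟨_, hmem 0⟩ H.cf.abs.continuousOn
  have hη : 0 < |f x0| := abs_pos.2 (H.Gf (hGC x0 hx0)).1
  have hbd : ∀ n : ℕ, |g^[n] w| ≤ |w| - n * |f x0| := by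
    intro n
    induction n with
    | zero => simp
    | succ n ih =>
      rw [Function.iterate_succ_apply']
      have h1 := H.abs_sum (H.Ggi n hw)
      have h4 : |f x0| ≤ |f (g^[n] w)| := hmin (hmem n)
      push_cast
      linarith
  obtain ⟨n, hn⟩ := exists_nat_gt (|w| / |f x0|)
  rw [div_lt_iff₀ hη] at hn
  have := hbd n
  linarith [abs_nonneg (g^[n] w)]

theorem fi0 (m : ℕ) : f^[m] 0 = 0 := by
  induction m with
  | zero => rfl
  | succ m ih => rw [Function.iterate_succ_apply, H.f0, ih]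

theorem key {w w' : ℝ} (hw : GN ε w) (hw' : GN ε w') (hww : 0 < w * w') {c : ℝ} (hc : 0 < c)
    (hc0 : c ≤ |g w| / |w|) (hc1 : c * |w'| ≤ |w|) (m n : ℕ) :
    ((2 * m + n).choose (2 * m) : ℝ) * ((|f w'| / |w'|) ^ (2 * m) * (|g w| / |w|) ^ n) ≤ 1 / c := by
  classical
  have hw'pos : 0 < |w'| := abs_pos.2 hw'.1
  have hwpos : 0 < |w| := abs_pos.2 hw.1
  have hspos : ∀ m, 0 < |f^[m] w'| := fun m => abs_pos.2 (H.Gfi m hw').1
  have hupos : ∀ m, 0 < |g^[m] w| := fun m => abs_pos.2 (H.Ggi m hw).1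
  have hslow := logconvex_lower (s := fun m => |f^[m] w'|) hspos (H.fconv hw') (2 * m)
  simp only [Function.iterate_zero, id_eq, Function.iterate_one] at hslow
  set S := |f^[2 * m] w'| with hS
  have hSM : S ≤ |w'| := by
    have : ∀ k, |f^[k] w'| ≤ |w'| := by
      intro k
      induction k with
      | zero => exact le_rfl
      | succ k ih =>
        rw [Function.iterate_succ_apply']
        have := H.abs_sum (H.Gfi k hw')
        linarith [abs_nonneg (g (f^[k] w'))]
    exact this _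
  -- choose j
  obtain ⟨j, hj1, hj2⟩ : ∃ j, |g^[j] w| ≤ S ∧ c * S ≤ |g^[j] w| := by
    have hex : ∃ i, |g^[i] w| ≤ S := by
      obtain ⟨n, hn⟩ := H.small_g hw (hspos (2 * m))
      exact ⟨n, hn.le⟩
    refine ⟨Nat.find hex, Nat.find_spec hex, ?_⟩
    rcases Nat.eq_zero_or_pos (Nat.find hex) with h0 | h0
    · rw [h0]
      have : c * S ≤ c * |w'| := mul_le_mul_of_nonneg_left hSM hc.le
      exact this.trans hc1
    · obtain ⟨i, hi⟩ : ∃ i, Nat.find hex = i + 1 := ⟨Nat.find hex - 1, by omega⟩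
      have h1 : ¬ |g^[i] w| ≤ S := Nat.find_min hex (by omega)
      push Not at h1
      rw [hi]
      have h2 := logconvex_lower' (s := fun m => |g^[m] w|) hupos (H.gconv hw) i 1
      simp only [Function.iterate_zero, id_eq, Function.iterate_one, pow_one] at h2
      refine le_trans ?_ h2
      rw [mul_comm]
      exact mul_le_mul h1.le hc0 hc.le (abs_nonneg _)
  obtain ⟨τ, hτ, hτe⟩ : ∃ τ ∈ Icc (0 : ℝ) 1, |f^[2 * m] (τ * w')| = |g^[j] w| := by
    have hcont : Continuous fun τ : ℝ => |f^[2 * m] (τ * w')| :=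
      ((H.cf.iterate (2 * m)).comp (continuous_id.mul continuous_const)).abs
    have := intermediate_value_Icc (zero_le_one : (0 : ℝ) ≤ 1) hcont.continuousOn
    refine this ⟨?_, ?_⟩
    · show |f^[2 * m] (0 * w')| ≤ |g^[j] w|
      rw [zero_mul, H.fi0, abs_zero]; exact abs_nonneg _
    · show |g^[j] w| ≤ |f^[2 * m] (1 * w')|
      rw [one_mul]; exact hj1
  set t := τ * w' with ht
  have hτpos : 0 < τ := by
    rcases lt_or_eq_of_le hτ.1 with h | h
    · exact h
    · exfalso
      rw [ht, ← h, zero_mul, H.fi0, abs_zero] at hτe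
      linarith [hupos j]
  have htle : |t| ≤ |w'| := by
    rw [ht, abs_mul, abs_of_pos hτpos]
    nlinarith [hτ.2]
  have htG : GN ε t := ⟨mul_ne_zero hτpos.ne' hw'.1, lt_of_le_of_lt htle hw'.2⟩
  have hft : f^[2 * m] t = g^[j] w := by
    have h1 := H.f_side m htG
    have h2 := H.g_side j hw
    have h3 : 0 < (1 : ℝ) * (t * w') := by
      rw [one_mul, ht, mul_assoc]
      exact mul_pos hτpos (mul_self_pos.2 hw'.1)
    have h4 := mulpos (mulpos (mulpos
      (show 0 < (1 : ℝ) * (f^[2 * m] t * t) by rw [one_mul, mul_comm]; exact h1) h3)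
      (show 0 < (1 : ℝ) * (w' * w) by rw [one_mul, mul_comm]; exact hww))
      (show 0 < (1 : ℝ) * (w * g^[j] w) by rw [one_mul]; exact h2)
    rcases abs_eq_abs.1 hτe with h' | h'
    · exact h'
    · rw [h'] at h4; nlinarith [mul_self_nonneg (g^[j] w)]
  have hch := tri_choose (H.tri htG (2 * m + n)) (fun _ _ _ => abs_nonneg _) (2 * m) n rfl
  simp only [Function.iterate_zero, id_eq] at hch
  rw [H.commi, hft, ← Function.iterate_add_apply, add_comm n j] at hch
  have hlow := logconvex_lower' (s := fun m => |g^[m] w|) hupos (H.gconv hw) j n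
  simp only [Function.iterate_zero, id_eq, Function.iterate_one] at hlow
  set a := |f w'| / |w'| with ha
  set b := |g w| / |w| with hb
  have hbpos : 0 ≤ b := by positivity
  have hapos : 0 ≤ a := by positivity
  have hfin : ((2 * m + n).choose (2 * m) : ℝ) * ((c * (|w'| * a ^ (2 * m))) * b ^ n) ≤ |w'| := by
    refine le_trans ?_ (hch.trans htle)
    refine mul_le_mul_of_nonneg_left ?_ (Nat.cast_nonneg _)
    refine le_trans ?_ hlow
    refine mul_le_mul_of_nonneg_right ?_ (by positivity)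
    exact (mul_le_mul_of_nonneg_left hslow hc.le).trans hj2
  have hfin2 : (c * (((2 * m + n).choose (2 * m) : ℝ) * (a ^ (2 * m) * b ^ n))) * |w'| ≤
      1 * |w'| := by
    calc _ = ((2 * m + n).choose (2 * m) : ℝ) * ((c * (|w'| * a ^ (2 * m))) * b ^ n) := by ring
      _ ≤ |w'| := hfin
      _ = _ := (one_mul _).symm
  have hfin3 := le_of_mul_le_mul_right hfin2 hw'pos
  rw [le_div_iff₀ hc]
  linarith

theorem ratio_le {w w' : ℝ} (hw : GN ε w) (hw' : GN ε w') (hww : 0 < w * w') :
    |f w'| * |w| ≤ |w'| * |f w| := by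
  by_contra hcon
  push Not at hcon
  have hw'pos : 0 < |w'| := abs_pos.2 hw'.1
  have hwpos : 0 < |w| := abs_pos.2 hw.1
  have hgpos : 0 < |g w| := abs_pos.2 (H.Gg hw).1
  have hfpos : 0 < |f w'| := abs_pos.2 (H.Gf hw').1
  set c := min (|g w| / |w|) (|w| / |w'|) with hc
  have hcpos : 0 < c := lt_min (by positivity) (by positivity)
  have hc1 : c * |w'| ≤ |w| := by
    have := min_le_right (|g w| / |w|) (|w| / |w'|)
    rw [← le_div_iff₀ hw'pos]
    exact this
  have hkey := H.key hw hw' hww hcpos (min_le_left _ _) hc1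
  set a := |f w'| / |w'| with ha
  set b := |g w| / |w| with hb
  have hapos : 0 < a := by positivity
  have hbpos : 0 < b := by positivity
  have ha1 : a ≤ 1 := by
    rw [ha, div_le_one hw'pos]
    have := H.abs_sum hw'
    linarith [abs_nonneg (g w')]
  have hab : 1 < a + b := by
    have h1 := H.abs_sum hw
    have h2 := H.abs_sum hw'
    rw [ha, hb, div_add_div _ _ hw'pos.ne' hwpos.ne', lt_div_iff₀ (by positivity), one_mul]
    have h3 : |g w| = |w| - |f w| := by linarith
    rw [h3]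
    nlinarith
  refine blowup (C := 1 / (a * c)) hapos.le hbpos.le hab (fun m n => ?_)
  have hmain : ((m + n).choose m : ℝ) * (a ^ m * b ^ n) * (a * c) ≤ 1 := by
    rcases Nat.even_or_odd' m with ⟨i, hi | hi⟩
    · have h1 := hkey i n
      rw [← hi, le_div_iff₀ hcpos] at h1
      calc ((m + n).choose m : ℝ) * (a ^ m * b ^ n) * (a * c)
          = a * (((m + n).choose m : ℝ) * (a ^ m * b ^ n) * c) := by ring
        _ ≤ 1 * 1 := mul_le_mul ha1 h1 (by positivity) zero_le_one
        _ = 1 := one_mul 1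
    · have h1 := hkey (i + 1) n
      have e : 2 * (i + 1) = m + 1 := by omega
      rw [e, le_div_iff₀ hcpos] at h1
      have h2 : ((m + n).choose m : ℝ) ≤ ((m + 1 + n).choose (m + 1) : ℝ) := by
        have : (m + n).choose m ≤ (m + 1 + n).choose (m + 1) := by
          rw [show m + 1 + n = (m + n) + 1 by ring, Nat.choose_succ_succ]
          exact Nat.le_add_right _ _
        exact_mod_cast this
      calc ((m + n).choose m : ℝ) * (a ^ m * b ^ n) * (a * c)
          = ((m + n).choose m : ℝ) * (a ^ (m + 1) * b ^ n * c) := by ring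
        _ ≤ ((m + 1 + n).choose (m + 1) : ℝ) * (a ^ (m + 1) * b ^ n * c) :=
            mul_le_mul_of_nonneg_right h2 (by positivity)
        _ = ((m + 1 + n).choose (m + 1) : ℝ) * (a ^ (m + 1) * b ^ n) * c := by ring
        _ ≤ 1 := h1
  rw [le_div_iff₀ (by positivity)]
  exact hmain

/-- **the contracting theorem** -/
theorem linear {x y : ℝ} (hx : |x| < ε) (hy : |y| < ε) (hxy : 0 < x * y) :
    f x * y = f y * x := by
  have gx : GN ε x := ⟨by rintro rfl; simp at hxy, hx⟩
  have gy : GN ε y := ⟨by rintro rfl; simp at hxy, hy⟩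
  have h1 := H.ratio_le gx gy hxy
  have h2 := H.ratio_le gy gx (by rw [mul_comm]; exact hxy)
  have h3 : |f x * y| = |f y * x| := by
    rw [abs_mul, abs_mul]
    linarith
  rcases abs_eq_abs.1 h3 with h4 | h4
  · exact h4
  · exfalso
    have p1 := H.hf x gx.1 gx.2
    have p2 := H.hf y gy.1 gy.2
    have p3 : 0 < (x * f x) * (y * f y) := mul_pos_of_neg_of_neg p1 p2
    have p4 : (x * f x) * (y * f y) = (f x * y) * (f y * x) := by ring
    rw [p4, h4] at p3
    nlinarith [mul_self_nonneg (f y * x)]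

end NE

end Pool.Agent.X182.FE
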