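import Pool.Agent.X182.FE.Tri

set_option autoImplicit false

/-!
# The expanding case
-/

open Filter Topology Set

namespace Pool.Agent.X182.FE

theorem mulpos {s t a b c : ℝ} (h1 : 0 < s * (a * b)) (h2 : 0 < t * (b * c)) :
    0 < s * t * (a * c) := by
  have hb : b ≠ 0 := by rintro rfl; simp at h1
  have h3 : 0 < b ^ 2 := by positivity
  have h4 : 0 < (s * (a * b)) * (t * (b * c)) := mul_pos h1 h2
  have h5 : (s * (a * b)) * (t * (b * c)) = b ^ 2 * (s * t * (a * c)) := by ring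
  rw [h5] at h4
  exact (mul_pos_iff_of_pos_left h3).1 h4

/-- two commuting maps with `K = σ + q` near `0`, on the sides selected by `A` -/
structure PE (K q : ℝ → ℝ) (σ ε : ℝ) (A : ℝ → Prop) : Prop where
  cK : Continuous K
  cq : Continuous q
  comm : ∀ x, q (K x) = K (q x)
  K0 : K 0 = 0
  q0 : q 0 = 0
  sq : σ * σ = 1
  ne : ∀ {x}, A x → x ≠ 0
  side : ∀ {x y}, A x → 0 < σ * (x * y) → A y
  eps : 0 < ε
  form : ∀ {x}, A x → |x| < ε → K x = σ * x + q x
  pos : ∀ {x}, A x → |x| < ε → 0 < σ * (x * q x)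

/-- the first `k` iterates of `x` stay in the good region -/
def G (K : ℝ → ℝ) (ε : ℝ) (A : ℝ → Prop) (k : ℕ) (x : ℝ) : Prop :=
  A x ∧ ∀ l ≤ k, |K^[l] x| < ε

namespace PE

variable {K q : ℝ → ℝ} {σ ε : ℝ} {A : ℝ → Prop} (H : PE K q σ ε A)

include H

theorem abs_sigma : |σ| = 1 := by
  have h := H.sq
  have h1 : |σ| * |σ| = 1 := by rw [← abs_mul, h, abs_one]
  nlinarith [abs_nonneg σ]

theorem same {x y : ℝ} (hx : A x) (h : 0 < x * y) : A y := by
  have h0 : 0 < x ^ 2 := by have := H.ne hx; positivity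
  have h1 : A (σ * x) := H.side hx (by
    have : σ * (x * (σ * x)) = (σ * σ) * x ^ 2 := by ring
    rw [this, H.sq]; linarith)
  refine H.side h1 ?_
  have : σ * (σ * x * y) = (σ * σ) * (x * y) := by ring
  rw [this, H.sq]; linarith

theorem K_pos {x : ℝ} (hx : A x) (hε : |x| < ε) : 0 < σ * (x * K x) := by
  rw [H.form hx hε]
  have h1 := H.pos hx hε
  have h2 : 0 < x ^ 2 := by have := H.ne hx; positivity
  have : σ * (x * (σ * x + q x)) = (σ * σ) * x ^ 2 + σ * (x * q x) := by ring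
  rw [this, H.sq]; linarith

theorem A_K {x : ℝ} (hx : A x) (hε : |x| < ε) : A (K x) := H.side hx (H.K_pos hx hε)

theorem A_q {x : ℝ} (hx : A x) (hε : |x| < ε) : A (q x) := H.side hx (H.pos hx hε)

theorem abs_K {x : ℝ} (hx : A x) (hε : |x| < ε) : |K x| = |x| + |q x| := by
  have h1 := H.pos hx hε
  have h2 : |x| = |σ * x| := by rw [abs_mul, H.abs_sigma, one_mul]
  rw [H.form hx hε, h2]
  have h3 : 0 < (σ * x) * q x := by linarith
  rcases pos_and_pos_or_neg_and_neg_of_mul_pos h3 with ⟨ha, hb⟩ | ⟨ha, hb⟩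
  · rw [abs_of_pos ha, abs_of_pos hb, abs_of_pos (by linarith)]
  · rw [abs_of_neg ha, abs_of_neg hb, abs_of_neg (by linarith)]; ring

theorem q_le_K {x : ℝ} (hx : A x) (hε : |x| < ε) : |q x| ≤ |K x| := by
  rw [H.abs_K hx hε]; linarith [abs_nonneg x]

theorem q_abs_pos {x : ℝ} (hx : A x) (hε : |x| < ε) : 0 < |q x| :=
  abs_pos.2 (H.ne (H.A_q hx hε))

omit H in
theorem G_mono {k k' : ℕ} {x : ℝ} (h : G K ε A k x) (hk : k' ≤ k) : G K ε A k' x :=
  ⟨h.1, fun l hl => h.2 l (hl.trans hk)⟩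

theorem G_A {k : ℕ} {x : ℝ} (h : G K ε A k x) : ∀ l ≤ k, A (K^[l] x) := by
  intro l
  induction l with
  | zero => intro _; exact h.1
  | succ l ih =>
    intro hl
    rw [Function.iterate_succ_apply']
    exact H.A_K (ih (by omega)) (h.2 l (by omega))

theorem G_K {k : ℕ} {x : ℝ} (h : G K ε A (k + 1) x) : G K ε A k (K x) := by
  refine ⟨H.A_K h.1 (h.2 0 (by omega)), fun l hl => ?_⟩
  rw [← Function.iterate_succ_apply]
  exact h.2 (l + 1) (by omega)

theorem comm_iter (l : ℕ) (x : ℝ) : q (K^[l] x) = K^[l] (q x) :=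
  (show Function.Commute q K from H.comm).iterate_right l x

theorem comm_iter' (l : ℕ) (x : ℝ) : q^[l] (K x) = K (q^[l] x) :=
  (show Function.Commute q K from H.comm).iterate_left l x

theorem comm_iter'' (l m : ℕ) (x : ℝ) : q^[l] (K^[m] x) = K^[m] (q^[l] x) :=
  (show Function.Commute q K from H.comm).iterate_iterate l m x

theorem G_q {k : ℕ} {x : ℝ} (h : G K ε A (k + 1) x) : G K ε A k (q x) := by
  refine ⟨H.A_q h.1 (h.2 0 (by omega)), fun l hl => ?_⟩
  rw [← H.comm_iter]
  refine lt_of_le_of_lt (H.q_le_K (H.G_A h l (by omega)) (h.2 l (by omega))) ?_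
  rw [← Function.iterate_succ_apply' K]
  exact h.2 (l + 1) (by omega)

theorem G_Ki (j : ℕ) : ∀ (r : ℕ) (x : ℝ), G K ε A (j + r) x → G K ε A r (K^[j] x) := by
  induction j with
  | zero => intro r x h; simpa using h
  | succ j ih =>
    intro r x h
    rw [Function.iterate_succ_apply]
    exact ih r (K x) (H.G_K (G_mono h (by omega)))

theorem G_qi (j : ℕ) : ∀ (r : ℕ) (x : ℝ), G K ε A (j + r) x → G K ε A r (q^[j] x) := by
  induction j with
  | zero => intro r x h; simpa using h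
  | succ j ih =>
    intro r x h
    rw [Function.iterate_succ_apply]
    exact ih r (q x) (H.G_q (G_mono h (by omega)))

theorem tri {k : ℕ} {x : ℝ} (h : G K ε A k x) : Tri (fun i j => |q^[i] (K^[k - i - j] x)|) k := by
  intro i j hij
  obtain ⟨r, rfl⟩ : ∃ r, k = i + j + r + 1 := ⟨k - i - j - 1, by omega⟩
  have e1 : i + j + r + 1 - i - j = r + 1 := by omega
  have e2 : i + j + r + 1 - (i + 1) - j = r := by omega
  have e3 : i + j + r + 1 - i - (j + 1) = r := by omega
  simp only [e1, e2, e3]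
  have hu : G K ε A (j + 1) (q^[i] (K^[r] x)) :=
    H.G_qi i (j + 1) _ (H.G_Ki r (i + (j + 1)) _ (G_mono h (by omega)))
  have h1 := H.abs_K hu.1 (hu.2 0 (by omega))
  rw [Function.iterate_succ_apply' K, H.comm_iter', h1, Function.iterate_succ_apply' q]
  ring

/-- the basic inequality at points with long backward chains -/
theorem sqI {u : ℝ} (h : ∀ n : ℕ, ∃ w, G K ε A (n + 2) w ∧ K^[n] w = u) :
    |q (K u)| ^ 2 ≤ |K (K u)| * |q (q u)| := by
  refine sq_le_of_lim fun n => ?_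
  obtain ⟨w, hw, hwu⟩ := h n
  have h1 := tri_sq (H.tri hw) (fun _ _ _ => abs_nonneg _)
  simp only [Nat.sub_zero] at h1
  have e1 : K^[n + 2] w = K (K u) := by
    rw [Function.iterate_succ_apply', Function.iterate_succ_apply', hwu]
  have e2 : K^[n + 2 - 1] w = K u := by
    rw [show n + 2 - 1 = n + 1 by omega, Function.iterate_succ_apply', hwu]
  have e3 : K^[n + 2 - 2] w = u := by rw [show n + 2 - 2 = n by omega, hwu]
  rw [e1, e2, e3] at h1
  simpa using h1

/-- monotonicity of the ratio `|q|/|x|` along orbits -/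
theorem mono {u : ℝ} (h : ∀ n : ℕ, ∃ w, G K ε A (n + 2) w ∧ K^[n] w = u) :
    |q u| * |K u| ≤ |u| * |q (K u)| := by
  have h1 := H.sqI h
  obtain ⟨w, hw, hwu⟩ := h 0
  simp only [Function.iterate_zero, id_eq] at hwu
  subst hwu
  have hu : G K ε A 2 w := hw
  have a0 := H.abs_K hu.1 (hu.2 0 (by omega))
  have hK := H.G_K hu
  have hq := H.G_q hu
  have a1 := H.abs_K hK.1 (hK.2 0 (by omega))
  have a2 := H.abs_K hq.1 (hq.2 0 (by omega))
  rw [H.comm] at a1 h1 ⊢
  rw [a1, a2, a0] at h1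
  rw [a2, a0]
  nlinarith [h1]

theorem pre {z : ℝ} (hz : A z) (hε : |z| < ε) :
    ∃ y, A y ∧ 0 < σ * (y * z) ∧ |y| < |z| ∧ K y = z ∧
      ∀ t, 0 < t * y → |t| < |y| → |K t| < |z| := by
  have hz0 := H.ne hz
  have hzp : 0 < |z| := abs_pos.2 hz0
  have hz2 : 0 < z ^ 2 := by positivity
  have hAs : ∀ t : ℝ, 0 < t → A (t * (σ * z)) := fun t ht => H.side hz (by
    have : σ * (z * (t * (σ * z))) = (σ * σ) * (t * z ^ 2) := by ring
    rw [this, H.sq]; positivity)
  have habs : ∀ t : ℝ, 0 ≤ t → |t * (σ * z)| = t * |z| := by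
    intro t ht
    rw [abs_mul, abs_mul, H.abs_sigma, one_mul, abs_of_nonneg ht]
  have hcont : Continuous fun t : ℝ => |K (t * (σ * z))| :=
    (H.cK.comp (continuous_id.mul continuous_const)).abs
  set S : Set ℝ := Icc 0 1 ∩ {t | |z| ≤ |K (t * (σ * z))|} with hS
  have hcl : IsCompact S := isCompact_Icc.inter_right (isClosed_le continuous_const hcont)
  have hne : S.Nonempty := by
    refine ⟨1, ⟨by norm_num, le_rfl⟩, ?_⟩
    show |z| ≤ |K (1 * (σ * z))|
    rw [H.abs_K (hAs 1 one_pos) (by rw [habs 1 zero_le_one]; linarith), habs 1 zero_le_one]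
    linarith [abs_nonneg (q (1 * (σ * z)))]
  obtain ⟨t0, ht0, hmin⟩ := hcl.exists_isLeast hne
  have ht0z : |z| ≤ |K (t0 * (σ * z))| := ht0.2
  have ht0pos : 0 < t0 := by
    rcases lt_or_eq_of_le ht0.1.1 with h | h
    · exact h
    · exfalso
      rw [← h, zero_mul, H.K0, abs_zero] at ht0z
      linarith
  have hlt : ∀ t, 0 ≤ t → t < t0 → |K (t * (σ * z))| < |z| := by
    intro t h0 h1
    by_contra hcon
    push Not at hcon
    exact absurd (hmin ⟨⟨h0, by linarith [ht0.1.2]⟩, hcon⟩) (not_le.2 h1)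
  have hle : |K (t0 * (σ * z))| ≤ |z| := by
    have hc : Tendsto (fun t => |K (t * (σ * z))|) (𝓝[<] t0) (𝓝 |K (t0 * (σ * z))|) :=
      (hcont.tendsto t0).mono_left nhdsWithin_le_nhds
    refine le_of_tendsto hc ?_
    filter_upwards [Ioo_mem_nhdsLT ht0pos] with t ht
    exact (hlt t ht.1.le ht.2).le
  have heq : |K (t0 * (σ * z))| = |z| := le_antisymm hle ht0z
  have hA := hAs t0 ht0pos
  have hε' : |t0 * (σ * z)| < ε := by
    rw [habs t0 ht0pos.le]
    have := ht0.1.2
    nlinarith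
  have hK := H.K_pos hA hε'
  have hsame : 0 < z * K (t0 * (σ * z)) := by
    have : σ * (t0 * (σ * z) * K (t0 * (σ * z))) =
        (σ * σ) * (t0 * (z * K (t0 * (σ * z)))) := by ring
    rw [this, H.sq, one_mul] at hK
    exact (mul_pos_iff_of_pos_left ht0pos).1 hK
  have hKz : K (t0 * (σ * z)) = z := by
    rcases abs_eq_abs.1 heq with h | h
    · exact h
    · rw [h] at hsame; nlinarith [mul_self_nonneg z]
  refine ⟨t0 * (σ * z), hA, ?_, ?_, hKz, ?_⟩
  · have : σ * (t0 * (σ * z) * z) = (σ * σ) * (t0 * z ^ 2) := by ring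
    rw [this, H.sq]; positivity
  · have h1 := H.abs_K hA hε'
    rw [hKz] at h1
    linarith [H.q_abs_pos hA hε']
  · intro t ht1 ht2
    have hσz : σ * z ≠ 0 := by
      intro h0
      have := habs 1 zero_le_one
      rw [h0, mul_zero, abs_zero, one_mul] at this
      linarith
    have hts : t = (t / (σ * z)) * (σ * z) := (div_mul_cancel₀ t hσz).symm
    set s := t / (σ * z) with hsdef
    have hs : 0 < s := by
      rw [hts] at ht1
      have e : s * (σ * z) * (t0 * (σ * z)) = s * (t0 * (σ * z) ^ 2) := by ring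
      rw [e] at ht1
      exact (mul_pos_iff_of_pos_right (by positivity)).1 ht1
    have hst : s < t0 := by
      rw [hts, habs s hs.le, habs t0 ht0pos.le] at ht2
      exact (mul_lt_mul_iff_left₀ hzp).1 ht2
    rw [hts]
    exact hlt s hs.le hst

end PE

/-- a minimal branch of the inverse of `K` -/
structure Bk (K h : ℝ → ℝ) (σ ε : ℝ) (A : ℝ → Prop) : Prop where
  hA : ∀ {z}, A z → |z| < ε → A (h z)
  hs : ∀ {z}, A z → |z| < ε → 0 < σ * (h z * z)
  hlt : ∀ {z}, A z → |z| < ε → |h z| < |z|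
  hK : ∀ {z}, A z → |z| < ε → K (h z) = z
  hmin : ∀ {z}, A z → |z| < ε → ∀ t, 0 < t * h z → |t| < |h z| → |K t| < |z|

theorem PE.exists_h {K q : ℝ → ℝ} {σ ε : ℝ} {A : ℝ → Prop} (H : PE K q σ ε A) :
    ∃ h : ℝ → ℝ, Bk K h σ ε A := by
  have key : ∀ z, A z → |z| < ε → ∃ y, A y ∧ 0 < σ * (y * z) ∧ |y| < |z| ∧ K y = z ∧
      ∀ t, 0 < t * y → |t| < |y| → |K t| < |z| := fun z hz he => H.pre hz he
  choose! h h1 using key
  exact ⟨h, fun hz he => (h1 _ hz he).1, fun hz he => (h1 _ hz he).2.1,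
    fun hz he => (h1 _ hz he).2.2.1, fun hz he => (h1 _ hz he).2.2.2.1,
    fun hz he => (h1 _ hz he).2.2.2.2⟩

namespace PE

variable {K q h : ℝ → ℝ} {σ ε : ℝ} {A : ℝ → Prop} (H : PE K q σ ε A) (B : Bk K h σ ε A)

section Bonly
include B

theorem G_h1 {r : ℕ} {z : ℝ} (hz : G K ε A r z) : G K ε A (r + 1) (h z) := by
  have h0 : |z| < ε := hz.2 0 (by omega)
  refine ⟨B.hA hz.1 h0, fun l hl => ?_⟩
  cases l with
  | zero => exact (B.hlt hz.1 h0).trans h0
  | succ l =>
    rw [Function.iterate_succ_apply, B.hK hz.1 h0]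
    exact hz.2 l (by omega)

theorem G_h (n : ℕ) {r : ℕ} {z : ℝ} (hz : G K ε A r z) : G K ε A (r + n) (h^[n] z) := by
  induction n with
  | zero => exact hz
  | succ n ih =>
    rw [Function.iterate_succ_apply']
    exact G_h1 B ih

theorem h_A (n : ℕ) {z : ℝ} (hz : G K ε A 0 z) : A (h^[n] z) := (G_h B n hz).1

theorem h_eps (n : ℕ) {z : ℝ} (hz : G K ε A 0 z) : |h^[n] z| < ε := (G_h B n hz).2 0 (by omega)

theorem h_K (n : ℕ) {z : ℝ} (hz : G K ε A 0 z) : K (h^[n + 1] z) = h^[n] z := by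
  rw [Function.iterate_succ_apply']
  exact B.hK (h_A B n hz) (h_eps B n hz)

theorem h_Ki (n l : ℕ) {z : ℝ} (hz : G K ε A 0 z) : K^[l] (h^[n + l] z) = h^[n] z := by
  induction l with
  | zero => rfl
  | succ l ih =>
    rw [Function.iterate_succ_apply, ← add_assoc, h_K B _ hz, ih]

theorem h_lt (n : ℕ) {z : ℝ} (hz : G K ε A 0 z) : |h^[n + 1] z| < |h^[n] z| := by
  rw [Function.iterate_succ_apply']
  exact B.hlt (h_A B n hz) (h_eps B n hz)

theorem h_le (n : ℕ) {z : ℝ} (hz : G K ε A 0 z) : |h^[n] z| ≤ |z| := by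
  induction n with
  | zero => exact le_rfl
  | succ n ih => exact (h_lt B n hz).le.trans ih

end Bonly

include H B

theorem h_side (n : ℕ) {z : ℝ} (hz : G K ε A 0 z) : 0 < σ ^ n * (h^[n] z * z) := by
  induction n with
  | zero =>
    simp only [pow_zero, one_mul, Function.iterate_zero, id_eq]
    exact mul_self_pos.2 (H.ne hz.1)
  | succ n ih =>
    have h1 := B.hs (h_A B n hz) (h_eps B n hz)
    rw [← Function.iterate_succ_apply' h] at h1
    have := mulpos h1 ih
    rwa [← pow_succ'] at this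

theorem mono2 {u : ℝ} (hu : G K ε A 2 u) : |q u| * |K u| ≤ |u| * |q (K u)| := by
  refine H.mono fun n => ⟨h^[n] u, ?_, ?_⟩
  · rw [add_comm]
    exact G_h B n hu
  · have := h_Ki B 0 n (G_mono hu (Nat.zero_le 2))
    simpa using this

theorem s_convex (m : ℕ) {z : ℝ} (hz : G K ε A 0 z) :
    |q^[m + 1] (h^[m + 1] z)| ^ 2 ≤ |q^[m] (h^[m] z)| * |q^[m + 2] (h^[m + 2] z)| := by
  have h1 := H.sqI (u := q^[m] (h^[m + 2] z)) (fun n => ⟨q^[m] (h^[m + 2 + n] z), ?_, ?_⟩)
  · rw [← H.comm_iter', h_K B (m + 1) hz, ← H.comm_iter', h_K B m hz,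
      ← Function.iterate_succ_apply' q, ← Function.iterate_succ_apply' q,
      ← Function.iterate_succ_apply' q] at h1
    exact h1
  · have := G_h B (m + 2 + n) hz
    exact H.G_qi m (n + 2) _ (G_mono this (by omega))
  · rw [← H.comm_iter'', h_Ki B (m + 2) n hz]

theorem ratio_chain (n : ℕ) : ∀ y, G K ε A (n + 2) y →
    |q y| * |K^[n] y| ≤ |y| * |q (K^[n] y)| := by
  induction n with
  | zero => intro y _; exact le_of_eq (mul_comm _ _)
  | succ n ih =>
    intro y hy
    have h1 := H.mono2 B (G_mono hy (by omega) : G K ε A 2 y)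
    have hK : G K ε A (n + 2) (K y) := H.G_K hy
    have h2 := ih (K y) hK
    rw [← Function.iterate_succ_apply] at h2
    have h3 : 0 < |K y| := abs_pos.2 (H.ne hK.1)
    have h4 : 0 < |q (K y)| := H.q_abs_pos hK.1 (hK.2 0 (by omega))
    have h5 : (|q y| * |K^[n + 1] y|) * (|K y| * |q (K y)|) ≤
        (|y| * |q (K^[n + 1] y)|) * (|K y| * |q (K y)|) := by
      have := mul_le_mul h1 h2 (by positivity) (by positivity)
      calc _ = |q y| * |K y| * (|q (K y)| * |K^[n + 1] y|) := by ring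
        _ ≤ _ := this
        _ = _ := by ring
    exact le_of_mul_le_mul_right h5 (by positivity)

theorem back1 (n : ℕ) {y w : ℝ} (hy : G K ε A (n + 2) y) (hw : K^[n] y = w) :
    |K y| * |w| ≤ |y| * |K w| := by
  have h1 := H.ratio_chain B n y hy
  rw [hw] at h1
  have hw' : G K ε A 2 w := by
    rw [← hw]; exact H.G_Ki n 2 y hy
  rw [H.abs_K hy.1 (hy.2 0 (by omega)), H.abs_K hw'.1 (hw'.2 0 (by omega))]
  nlinarith

theorem back (n : ℕ) : ∀ (j : ℕ) {y w : ℝ}, G K ε A (n + j + 2) y → K^[n + j] y = w →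
    (|w| / |K w|) ^ n * |K^[n] y| ≤ |y| := by
  induction n with
  | zero => intro j y w _ _; simp
  | succ n ih =>
    intro j y w hy hw
    have hK : G K ε A (n + j + 2) (K y) := H.G_K (G_mono hy (by omega))
    have h1 := ih j (w := w) hK (by
      rw [← Function.iterate_succ_apply, ← hw, show n + 1 + j = (n + j).succ by omega])
    rw [← Function.iterate_succ_apply] at h1
    have h2 := H.back1 B (n + 1 + j) hy hw
    have hw' : G K ε A 2 w := by
      rw [← hw]; exact H.G_Ki _ 2 y hy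
    have hKw : 0 < |K w| := abs_pos.2 (H.ne (H.G_K hw').1)
    have h3 : |w| / |K w| * |K y| ≤ |y| := by
      rw [div_mul_eq_mul_div, div_le_iff₀ hKw]
      linarith
    have h4 : 0 ≤ |w| / |K w| := by positivity
    calc (|w| / |K w|) ^ (n + 1) * |K^[n + 1] y|
        = (|w| / |K w|) * ((|w| / |K w|) ^ n * |K^[n + 1] y|) := by ring
      _ ≤ (|w| / |K w|) * |K y| := mul_le_mul_of_nonneg_left h1 h4
      _ ≤ |y| := h3

theorem small_back {w : ℝ} (hw : G K ε A 0 w) {δ : ℝ} (hδ : 0 < δ) :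
    ∃ n, |h^[2 * n + 1] w| < δ := by
  by_contra hcon
  push Not at hcon
  have hwε : |w| < ε := hw.2 0 le_rfl
  have heven : ∀ n, δ ≤ |h^[2 * n] w| := fun n => (hcon n).trans (h_lt B (2 * n) hw).le
  set C : Set ℝ := {x | δ ≤ |x|} ∩ {x | |x| ≤ |w|} ∩ {x | 0 ≤ x * w} with hCdef
  have hC : IsCompact C := by
    refine (isCompact_Icc (a := -|w|) (b := |w|)).of_isClosed_subset ?_ ?_
    · exact ((isClosed_le continuous_const continuous_abs).inter
        (isClosed_le continuous_abs continuous_const)).inter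
        (isClosed_le continuous_const (continuous_id.mul continuous_const))
    · intro x hx
      exact abs_le.1 hx.1.2
  have hmem : ∀ n, h^[2 * n] w ∈ C := by
    intro n
    refine ⟨⟨heven n, h_le B _ hw⟩, ?_⟩
    have h1 := H.h_side B (2 * n) hw
    rw [pow_mul, pow_two, H.sq, one_pow, one_mul] at h1
    exact h1.le
  obtain ⟨x0, hx0, hmin⟩ := hC.exists_isMinOn ⟨_, hmem 0⟩ H.cq.abs.continuousOn
  have hx0A : A x0 := by
    refine H.same hw.1 (lt_of_le_of_ne (by rw [mul_comm]; exact hx0.2) ?_)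
    intro h0
    rcases mul_eq_zero.1 h0.symm with h | h
    · exact H.ne hw.1 h
    · have : δ ≤ |x0| := hx0.1.1
      rw [h, abs_zero] at this
      linarith
  have hη : 0 < |q x0| := H.q_abs_pos hx0A (lt_of_le_of_lt hx0.1.2 hwε)
  have hbd : ∀ n : ℕ, |h^[2 * n] w| ≤ |w| - n * |q x0| := by
    intro n
    induction n with
    | zero => simp
    | succ n ih =>
      have e : 2 * (n + 1) = 2 * n + 1 + 1 := by ring
      have h1 : |K (h^[2 * (n + 1)] w)| = |h^[2 * (n + 1)] w| + |q (h^[2 * (n + 1)] w)| :=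
        H.abs_K (h_A B _ hw) (h_eps B _ hw)
      have h2 : K (h^[2 * (n + 1)] w) = h^[2 * n + 1] w := by rw [e]; exact h_K B _ hw
      have h3 := h_lt B (2 * n) hw
      have h4 : |q x0| ≤ |q (h^[2 * (n + 1)] w)| := hmin (hmem (n + 1))
      rw [h2] at h1
      push_cast
      linarith
  obtain ⟨n, hn⟩ := exists_nat_gt (|w| / |q x0|)
  rw [div_lt_iff₀ hη] at hn
  have := hbd n
  linarith [abs_nonneg (h^[2 * n] w)]

theorem under (m : ℕ) {z : ℝ} (hz : G K ε A 0 z) : ∀ t, 0 < t * h^[m] z → |t| ≤ |h^[m] z| →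
    G K ε A m t ∧ |K^[m] t| ≤ |z| := by
  induction m with
  | zero =>
    intro t ht1 ht2
    have : |t| ≤ |z| := ht2
    refine ⟨⟨H.same hz.1 (by rw [mul_comm]; exact ht1), fun l hl => ?_⟩, this⟩
    obtain rfl : l = 0 := by omega
    exact lt_of_le_of_lt this (hz.2 0 le_rfl)
  | succ m ih =>
    intro t ht1 ht2
    have hA := h_A B m hz
    have he := h_eps B m hz
    have htA : A t := H.same (h_A B (m + 1) hz) (by rw [mul_comm]; exact ht1)
    have htε : |t| < ε := lt_of_le_of_lt ht2 (h_eps B _ hz)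
    have hKt : |K t| ≤ |h^[m] z| := by
      rw [Function.iterate_succ_apply'] at ht1 ht2
      rcases lt_or_eq_of_le ht2 with hh | hh
      · exact (B.hmin hA he t ht1 hh).le
      · have hte : t = h (h^[m] z) := by
          rcases abs_eq_abs.1 hh with h' | h'
          · exact h'
          · rw [h'] at ht1; nlinarith [mul_self_nonneg (h (h^[m] z))]
        rw [hte, B.hK hA he]
    have hside : 0 < K t * h^[m] z := by
      have h1 := H.K_pos htA htε
      have h2 := B.hs hA he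
      rw [← Function.iterate_succ_apply' h] at h2
      have h3 : 0 < σ * (K t * t) := by rw [mul_comm (K t)]; exact h1
      have h4 : 0 < (1 : ℝ) * (t * h^[m + 1] z) := by rw [one_mul]; exact ht1
      have h5 := mulpos (mulpos h3 h4) h2
      rwa [mul_one, H.sq, one_mul] at h5
    obtain ⟨hG, hle⟩ := ih (K t) hside hKt
    refine ⟨⟨htA, fun l hl => ?_⟩, ?_⟩
    · cases l with
      | zero => exact htε
      | succ l =>
        rw [Function.iterate_succ_apply]
        exact hG.2 l (by omega)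
    · rw [Function.iterate_succ_apply]
      exact hle

end PE

end Pool.Agent.X182.FE
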