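import Pool.Agent.X182.FE.Pos

set_option autoImplicit false

/-!
# The expanding case: constancy of the ratio
-/

open Filter Topology Set

namespace Pool.Agent.X182.FE

theorem logconvex_ratio {s : ℕ → ℝ} (hpos : ∀ m, 0 < s m)
    (hc : ∀ m, s (m + 1) ^ 2 ≤ s m * s (m + 2)) (m : ℕ) : s 1 * s m ≤ s 0 * s (m + 1) := by
  induction m with
  | zero => exact le_of_eq (mul_comm _ _)
  | succ m ih =>
    have a := hpos m
    have b := hpos (m + 1)
    have c := hpos (m + 2)
    have d := hpos 0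
    have e := hpos 1
    have h2 : (s 1 * s (m + 1)) * (s m * s (m + 1)) ≤ (s 0 * s (m + 2)) * (s m * s (m + 1)) := by
      have := mul_le_mul ih (hc m) (by positivity) (by positivity)
      calc _ = s 1 * s m * s (m + 1) ^ 2 := by ring
        _ ≤ _ := this
        _ = _ := by ring
    exact le_of_mul_le_mul_right h2 (by positivity)

theorem logconvex_lower' {s : ℕ → ℝ} (hpos : ∀ m, 0 < s m)
    (hc : ∀ m, s (m + 1) ^ 2 ≤ s m * s (m + 2)) (j m : ℕ) :
    s j * (s 1 / s 0) ^ m ≤ s (j + m) := by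
  induction m with
  | zero => simp
  | succ m ih =>
    have d := hpos 0
    have e := hpos 1
    have h2 := logconvex_ratio hpos hc (j + m)
    calc s j * (s 1 / s 0) ^ (m + 1) = (s 1 / s 0) * (s j * (s 1 / s 0) ^ m) := by ring
      _ ≤ (s 1 / s 0) * s (j + m) := mul_le_mul_of_nonneg_left ih (by positivity)
      _ ≤ s (j + (m + 1)) := by
        rw [div_mul_eq_mul_div, div_le_iff₀ d, ← add_assoc]
        linarith

theorem logconvex_lower {s : ℕ → ℝ} (hpos : ∀ m, 0 < s m)
    (hc : ∀ m, s (m + 1) ^ 2 ≤ s m * s (m + 2)) (m : ℕ) : s 0 * (s 1 / s 0) ^ m ≤ s m := by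
  have := logconvex_lower' hpos hc 0 m
  rwa [zero_add] at this

namespace PE

variable {K q : ℝ → ℝ} {σ ε : ℝ} {A : ℝ → Prop} (H : PE K q σ ε A)

include H

/-- choice of a backward point of `w` comparable to `s` -/
theorem choose_back {h : ℝ → ℝ} (B : Bk K h σ ε A) {w : ℝ} (hw : G K ε A 2 w) {S : ℝ}
    (hS : 0 < S) {c M : ℝ} (hSM : S ≤ M) (hc0 : c ≤ (|w| / |K w|) ^ 2) (hc1 : c * M ≤ |h w|)
    (hc : 0 ≤ c) :
    ∃ i, |h^[2 * i + 1] w| ≤ S ∧ c * S ≤ |h^[2 * i + 1] w| := by
  classical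
  have hw0 : G K ε A 0 w := G_mono hw (Nat.zero_le 2)
  have hex : ∃ i, |h^[2 * i + 1] w| ≤ S := by
    obtain ⟨n, hn⟩ := H.small_back B hw0 hS
    exact ⟨n, hn.le⟩
  refine ⟨Nat.find hex, Nat.find_spec hex, ?_⟩
  rcases Nat.eq_zero_or_pos (Nat.find hex) with h0 | h0
  · rw [h0]
    have : c * S ≤ c * M := mul_le_mul_of_nonneg_left hSM hc
    exact this.trans hc1
  · obtain ⟨i, hi⟩ : ∃ i, Nat.find hex = i + 1 := ⟨Nat.find hex - 1, by omega⟩
    have h1 : ¬ |h^[2 * i + 1] w| ≤ S := Nat.find_min hex (by omega)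
    push Not at h1
    rw [hi]
    have hG : G K ε A (2 + (2 * i + 1) + 2) (h^[2 * (i + 1) + 1] w) := by
      have := G_h B (2 * (i + 1) + 1) hw
      exact G_mono this (by omega)
    have hK2 : K^[2 + (2 * i + 1)] (h^[2 * (i + 1) + 1] w) = w := by
      have := h_Ki B 0 (2 + (2 * i + 1)) hw0
      rw [show 2 * (i + 1) + 1 = 0 + (2 + (2 * i + 1)) by ring]
      exact this
    have h2 := H.back B 2 (2 * i + 1) hG hK2
    have h3 : K^[2] (h^[2 * (i + 1) + 1] w) = h^[2 * i + 1] w := by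
      have := h_Ki B (2 * i + 1) 2 hw0
      rw [show 2 * (i + 1) + 1 = 2 * i + 1 + 2 by ring]
      exact this
    rw [h3] at h2
    refine le_trans ?_ h2
    exact mul_le_mul hc0 h1.le hS.le (by positivity)

omit H in
theorem G_append {n r : ℕ} {y : ℝ} (h1 : G K ε A n y) (h2 : G K ε A r (K^[n] y)) :
    G K ε A (n + r) y := by
  refine ⟨h1.1, fun l hl => ?_⟩
  rcases le_or_gt l n with h | h
  · exact h1.2 l h
  · have := h2.2 (l - n) (by omega)
    rwa [← Function.iterate_add_apply, show l - n + n = l by omega] at this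

theorem q_side (m : ℕ) {x : ℝ} (hx : G K ε A m x) : 0 < σ ^ m * (x * q^[m] x) := by
  induction m with
  | zero =>
    simp only [pow_zero, one_mul, Function.iterate_zero, id_eq]
    exact mul_self_pos.2 (H.ne hx.1)
  | succ m ih =>
    have h1 := ih (G_mono hx (by omega))
    have h2 : G K ε A 0 (q^[m] x) := H.G_qi m 0 x (G_mono hx (by omega))
    have h3 := H.pos h2.1 (h2.2 0 le_rfl)
    rw [← Function.iterate_succ_apply' q] at h3
    have := mulpos h1 h3
    rwa [← pow_succ] at this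

theorem key {h : ℝ → ℝ} (B : Bk K h σ ε A) {w z : ℝ} (hw : G K ε A 2 w) (hz : G K ε A 0 z)
    (hwz : 0 < σ * (w * z)) {c : ℝ} (hc : 0 < c) (hc0 : c ≤ (|w| / |K w|) ^ 2)
    (hc1 : c * |z| ≤ |h w|) (m n : ℕ) :
    ((m + n).choose m : ℝ) * ((|q (h z)| / |z|) ^ m * (|w| / |K w|) ^ n) ≤ 1 / c := by
  have hw0 : G K ε A 0 w := G_mono hw (Nat.zero_le 2)
  have hzpos : 0 < |z| := abs_pos.2 (H.ne hz.1)
  -- the sequence `s`
  set s : ℕ → ℝ := fun m => |q^[m] (h^[m] z)| with hs
  have hGm : ∀ m, G K ε A m (h^[m] z) := fun m => G_mono (G_h B m hz) (by omega)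
  have hspos : ∀ m, 0 < s m := fun m =>
    abs_pos.2 (H.ne (H.G_qi m 0 _ (hGm m)).1)
  have hslow := logconvex_lower hspos (fun m => H.s_convex B m hz) m
  have hs0 : s 0 = |z| := rfl
  have hs1 : s 1 = |q (h z)| := rfl
  rw [hs0, hs1] at hslow
  have hsM : s m ≤ |z| := by
    have h1 := tri_choose (H.tri (hGm m)) (fun _ _ _ => abs_nonneg _) m 0 rfl
    simp only [Nat.sub_zero, Nat.sub_self, add_zero, Nat.choose_self, Nat.cast_one, one_mul,
      Function.iterate_zero, id_eq] at h1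
    have h2 := h_Ki B 0 m hz
    rw [zero_add] at h2
    rw [h2] at h1
    exact h1
  obtain ⟨i, hi1, hi2⟩ := H.choose_back B hw (hspos m) hsM hc0 hc1 hc.le
  set j := 2 * i + 1 with hj
  set yj := h^[j] w with hyj
  have hyjG : G K ε A (2 + j) yj := G_h B j hw
  have hyjpos : 0 < |yj| := abs_pos.2 (H.ne hyjG.1)
  -- intermediate value
  obtain ⟨τ, hτ, hτe⟩ : ∃ τ ∈ Icc (0 : ℝ) 1, |q^[m] (τ * h^[m] z)| = |yj| := by
    have hcont : Continuous fun τ : ℝ => |q^[m] (τ * h^[m] z)| :=
      ((H.cq.iterate m).comp (continuous_id.mul continuous_const)).abs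
    have h0 : q^[m] 0 = 0 := by
      have : ∀ m : ℕ, q^[m] 0 = 0 := by
        intro m
        induction m with
        | zero => rfl
        | succ m ih => rw [Function.iterate_succ_apply, H.q0, ih]
      exact this m
    have := intermediate_value_Icc (zero_le_one : (0 : ℝ) ≤ 1) hcont.continuousOn
    refine this ⟨?_, ?_⟩
    · show |q^[m] (0 * h^[m] z)| ≤ |yj|
      rw [zero_mul, h0, abs_zero]; exact abs_nonneg _
    · show |yj| ≤ |q^[m] (1 * h^[m] z)|
      rw [one_mul]; exact hi1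
  set t := τ * h^[m] z with ht
  have hτpos : 0 < τ := by
    rcases lt_or_eq_of_le hτ.1 with h | h
    · exact h
    · exfalso
      have h0 : q^[m] 0 = 0 := by
        have : ∀ m : ℕ, q^[m] 0 = 0 := by
          intro m
          induction m with
          | zero => rfl
          | succ m ih => rw [Function.iterate_succ_apply, H.q0, ih]
        exact this m
      rw [ht, ← h, zero_mul, h0, abs_zero] at hτe
      linarith
  have hxm : 0 < h^[m] z * h^[m] z := mul_self_pos.2 (H.ne (hGm m).1)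
  have htside : 0 < t * h^[m] z := by
    rw [ht, mul_assoc]; positivity
  have htle : |t| ≤ |h^[m] z| := by
    rw [ht, abs_mul, abs_of_pos hτpos]
    have := abs_nonneg (h^[m] z)
    nlinarith [hτ.2]
  obtain ⟨hGt, hKt⟩ := H.under B m hz t htside htle
  -- `q^[m] t = yj`
  have hqt : q^[m] t = yj := by
    have h1 := H.q_side m hGt
    have h2 := H.h_side B m hz
    have h3 : 0 < (1 : ℝ) * (t * h^[m] z) := by rw [one_mul]; exact htside
    have h4 := mulpos (mulpos (show 0 < σ ^ m * (q^[m] t * t) by rw [mul_comm (q^[m] t)]; exact h1)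
      h3) h2
    have h5 : σ ^ m * 1 * σ ^ m = 1 := by rw [mul_one, ← mul_pow, H.sq, one_pow]
    rw [h5] at h4
    have h6 := H.h_side B j hw0
    have h7 : σ ^ j = σ := by rw [hj, pow_succ, pow_mul, pow_two, H.sq, one_pow, one_mul]
    rw [h7] at h6
    have h8 := mulpos h6 hwz
    rw [H.sq] at h8
    have h9 := mulpos h4 (show 0 < (1 : ℝ) * (z * yj) by rw [mul_comm z]; exact h8)
    rw [one_mul, one_mul] at h9
    rcases abs_eq_abs.1 hτe with h' | h'
    · exact h'
    · rw [h'] at h9; nlinarith [mul_self_nonneg yj]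
  -- the deep point
  set x := h^[n] t with hx
  have ht0 : G K ε A 0 t := G_mono hGt (Nat.zero_le m)
  have hGx : G K ε A (m + n) x := G_h B n hGt
  have hKx : K^[n] x = t := by
    have := h_Ki B 0 n ht0
    rwa [zero_add] at this
  have hch := tri_choose (H.tri hGx) (fun _ _ _ => abs_nonneg _) m n rfl
  simp only [Nat.sub_zero, Function.iterate_zero, id_eq] at hch
  rw [show m + n - m - n = 0 by omega, Function.iterate_zero, id_eq, Function.iterate_add_apply,
    hKx] at hch
  have hch2 := hch.trans hKt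
  -- lower bound of `q^[m] x`
  have hy1 : G K ε A n (q^[m] x) := H.G_qi m n _ hGx
  have hy2 : K^[n] (q^[m] x) = yj := by rw [← H.comm_iter'', hKx, hqt]
  have hy3 : G K ε A (n + j + 2) (q^[m] x) := by
    have := G_append hy1 (by rw [hy2]; exact hyjG)
    exact G_mono this (by omega)
  have hy4 : K^[n + j] (q^[m] x) = w := by
    rw [add_comm n j, Function.iterate_add_apply, hy2]
    have := h_Ki B 0 j hw0
    rwa [zero_add] at this
  have hlow := H.back B n j hy3 hy4
  rw [hy2] at hlow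
  have hKw : 0 < |K w| := abs_pos.2 (H.ne (H.G_K hw).1)
  have hwpos : 0 < |w| := abs_pos.2 (H.ne hw.1)
  set a := |q (h z)| / |z| with ha
  set b := |w| / |K w| with hb
  have hbpos : 0 < b := by positivity
  have hapos : 0 ≤ a := by positivity
  have hfin : ((m + n).choose m : ℝ) * (b ^ n * (c * (|z| * a ^ m))) ≤ |z| := by
    refine le_trans ?_ hch2
    refine mul_le_mul_of_nonneg_left ?_ (Nat.cast_nonneg _)
    refine le_trans ?_ hlow
    refine mul_le_mul_of_nonneg_left ?_ (by positivity)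
    exact (mul_le_mul_of_nonneg_left hslow hc.le).trans hi2
  have hfin2 : (c * (((m + n).choose m : ℝ) * (a ^ m * b ^ n))) * |z| ≤ 1 * |z| := by
    calc _ = ((m + n).choose m : ℝ) * (b ^ n * (c * (|z| * a ^ m))) := by ring
      _ ≤ |z| := hfin
      _ = _ := (one_mul _).symm
  have hfin3 := le_of_mul_le_mul_right hfin2 hzpos
  rw [le_div_iff₀ hc]
  linarith

/-- the ratio `|q x| / |x|` is constant on each side, near `0` -/
theorem ratio_le {w w' : ℝ} (hw : G K ε A 2 w) (hw' : G K ε A 1 w') (hww : 0 < w * w') :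
    |q w'| * |w| ≤ |w'| * |q w| := by
  by_contra hcon
  push Not at hcon
  obtain ⟨h, B⟩ := H.exists_h
  have hz : G K ε A 0 (K w') := H.G_K hw'
  set z := K w' with hzdef
  have hw'pos : 0 < |w'| := abs_pos.2 (H.ne hw'.1)
  have hwpos : 0 < |w| := abs_pos.2 (H.ne hw.1)
  have hw0 : G K ε A 0 w := G_mono hw (Nat.zero_le 2)
  have hside1 : 0 < σ * (w' * z) := H.K_pos hw'.1 (hw'.2 0 (by omega))
  have hwz : 0 < σ * (w * z) := by
    have := mulpos (show 0 < (1 : ℝ) * (w * w') by rw [one_mul]; exact hww) hside1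
    rwa [one_mul] at this
  have hzpos : 0 < |z| := abs_pos.2 (H.ne hz.1)
  have hhz : |h z| ≤ |w'| := by
    by_contra hlt
    push Not at hlt
    have h1 := B.hs hz.1 (hz.2 0 le_rfl)
    have h2 := mulpos hside1 (show 0 < σ * (z * h z) by rw [mul_comm z]; exact h1)
    rw [H.sq, one_mul] at h2
    exact absurd (B.hmin hz.1 (hz.2 0 le_rfl) w' h2 hlt) (lt_irrefl _)
  have hK1 : |K (h z)| = |h z| + |q (h z)| :=
    H.abs_K (B.hA hz.1 (hz.2 0 le_rfl)) ((B.hlt hz.1 (hz.2 0 le_rfl)).trans (hz.2 0 le_rfl))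
  rw [B.hK hz.1 (hz.2 0 le_rfl)] at hK1
  have hKw' : |z| = |w'| + |q w'| := H.abs_K hw'.1 (hw'.2 0 (by omega))
  have hKw : |K w| = |w| + |q w| := H.abs_K hw.1 (hw.2 0 (by omega))
  have hKwpos : 0 < |K w| := abs_pos.2 (H.ne (H.G_K hw).1)
  have hhw : 0 < |h w| := abs_pos.2 (H.ne (B.hA hw0.1 (hw0.2 0 le_rfl)))
  have hab : 1 < |q (h z)| / |z| + |w| / |K w| := by
    have h1 : |q w'| / |z| ≤ |q (h z)| / |z| := by
      apply div_le_div_of_nonneg_right _ hzpos.le
      linarith
    have h2 : 1 < |q w'| / |z| + |w| / |K w| := by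
      rw [div_add_div _ _ hzpos.ne' hKwpos.ne', lt_div_iff₀ (by positivity), one_mul, hKw', hKw]
      nlinarith
    linarith
  set c := min ((|w| / |K w|) ^ 2) (|h w| / |z|) with hc
  have hcpos : 0 < c := lt_min (by positivity) (by positivity)
  have hc1 : c * |z| ≤ |h w| := by
    have := min_le_right ((|w| / |K w|) ^ 2) (|h w| / |z|)
    rw [← le_div_iff₀ hzpos]
    exact this
  exact blowup (by positivity) (by positivity) hab
    (fun m n => H.key B hw hz hwz hcpos (min_le_left _ _) hc1 m n)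

theorem exists_nbhd : ∃ ε' > 0, ∀ x, A x → |x| < ε' → G K ε A 2 x := by
  have h1 : ∀ l : ℕ, ∀ᶠ x in 𝓝 (0 : ℝ), |K^[l] x| < ε := by
    intro l
    have h0 : K^[l] 0 = 0 := by
      induction l with
      | zero => rfl
      | succ l ih => rw [Function.iterate_succ_apply, H.K0, ih]
    have hc : Tendsto (fun x => |K^[l] x|) (𝓝 0) (𝓝 0) := by
      have := ((H.cK.iterate l).abs).tendsto 0
      simpa [h0] using this
    exact hc.eventually_lt_const H.eps
  have h2 : ∀ᶠ x in 𝓝 (0 : ℝ), |K^[0] x| < ε ∧ |K^[1] x| < ε ∧ |K^[2] x| < ε :=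
    (h1 0).and ((h1 1).and (h1 2))
  obtain ⟨ε', hε', hb⟩ := Metric.eventually_nhds_iff.1 h2
  refine ⟨ε', hε', fun x hx hxε => ⟨hx, fun l hl => ?_⟩⟩
  have h3 := hb (y := x) (by rwa [Real.dist_eq, sub_zero])
  interval_cases l
  · exact h3.1
  · exact h3.2.1
  · exact h3.2.2

/-- **the expanding theorem**: near `0` and on each side, `q` is linear. -/
theorem linear : ∃ ε' > 0, ∀ x y, A x → |x| < ε' → |y| < ε' → 0 < x * y →
    q x * y = q y * x := by
  obtain ⟨ε', hε', hb⟩ := H.exists_nbhd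
  refine ⟨ε', hε', fun x y hx hxe hye hxy => ?_⟩
  have hy : A y := H.same hx hxy
  have gx := hb x hx hxe
  have gy := hb y hy hye
  have h1 := H.ratio_le gx (G_mono gy (by omega)) hxy
  have h2 := H.ratio_le gy (G_mono gx (by omega)) (by rw [mul_comm]; exact hxy)
  have h3 : |q x * y| = |q y * x| := by
    rw [abs_mul, abs_mul]
    linarith
  rcases abs_eq_abs.1 h3 with h4 | h4
  · exact h4
  · exfalso
    have p1 := H.pos hx (gx.2 0 (by omega))
    have p2 := H.pos hy (gy.2 0 (by omega))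
    have p3 : 0 < (σ * (x * q x)) * (σ * (y * q y)) := mul_pos p1 p2
    have p4 : (σ * (x * q x)) * (σ * (y * q y)) = (σ * σ) * ((q x * y) * (q y * x)) := by ring
    rw [p4, H.sq, h4, one_mul] at p3
    nlinarith [mul_self_nonneg (q y * x)]

end PE

end Pool.Agent.X182.FE
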