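import Mathlib

set_option autoImplicit false

/-!
# Path counting on triangles
-/

open Finset Filter Topology

namespace Pool.Agent.X182.FE

/-- `W i j = W (i + 1) j + W i (j + 1)` on the triangle `i + j < k` -/
def Tri (W : ℕ → ℕ → ℝ) (k : ℕ) : Prop :=
  ∀ i j, i + j < k → W i j = W (i + 1) j + W i (j + 1)

theorem tri_sum {W : ℕ → ℕ → ℝ} {k : ℕ} (hW : Tri W k) (l : ℕ) : ∀ i j, i + j + l ≤ k →
    W i j = ∑ p ∈ antidiagonal l, (l.choose p.1 : ℝ) * W (i + p.1) (j + p.2) := by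
  induction l with
  | zero => intro i j _; simp
  | succ l ih =>
    intro i j h
    rw [Finset.sum_antidiagonal_choose_succ_mul (fun a b => W (i + a) (j + b)) l,
      hW i j (by omega), ih (i + 1) j (by omega), ih i (j + 1) (by omega), add_comm]
    congr 1
    · refine Finset.sum_congr rfl fun p _ => ?_
      rw [show j + 1 + p.2 = j + (p.2 + 1) by ring]
    · refine Finset.sum_congr rfl fun p hp => ?_
      rw [HasAntidiagonal.mem_antidiagonal] at hp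
      rw [show i + 1 + p.1 = i + (p.1 + 1) by ring, Nat.choose_symm_of_eq_add hp.symm]

theorem tri_choose {W : ℕ → ℕ → ℝ} {k : ℕ} (hW : Tri W k) (h0 : ∀ i j, i + j ≤ k → 0 ≤ W i j)
    (m n : ℕ) (h : m + n = k) : ((m + n).choose m : ℝ) * W m n ≤ W 0 0 := by
  rw [tri_sum hW k 0 0 (by omega)]
  have h1 := Finset.single_le_sum (f := fun p : ℕ × ℕ => (k.choose p.1 : ℝ) * W (0 + p.1) (0 + p.2))
    (s := antidiagonal k) (fun p hp => by
      rw [HasAntidiagonal.mem_antidiagonal] at hp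
      exact mul_nonneg (Nat.cast_nonneg _) (h0 _ _ (by omega)))
    (HasAntidiagonal.mem_antidiagonal.2 h : (m, n) ∈ antidiagonal k)
  simp only [zero_add] at h1 ⊢
  rw [h]
  exact h1

theorem tri_one {W : ℕ → ℕ → ℝ} {n : ℕ} (hW : Tri W (n + 2)) :
    W 1 0 = ∑ p ∈ antidiagonal (n + 2),
      ((p.1 : ℝ) / (n + 2)) * (((n + 2).choose p.1 : ℝ) * W p.1 p.2) := by
  have e : ∀ F : ℕ × ℕ → ℝ, ∑ p ∈ antidiagonal (n + 2), F p =
      F (0, n + 2) + ∑ p ∈ antidiagonal (n + 1), F (p.1 + 1, p.2) :=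
    fun F => Finset.Nat.sum_antidiagonal_succ
  rw [tri_sum hW (n + 1) 1 0 (by omega), e]
  simp only [Nat.cast_zero, zero_div, zero_mul, zero_add, Nat.cast_add, Nat.cast_one]
  refine Finset.sum_congr rfl fun p _ => ?_
  have h1 := Nat.add_one_mul_choose_eq (n + 1) p.1
  have h2 : ((n : ℝ) + 2) * ((n + 1).choose p.1 : ℝ) =
      ((n + 2).choose (p.1 + 1) : ℝ) * ((p.1 : ℝ) + 1) := by
    have := congrArg (Nat.cast : ℕ → ℝ) h1
    push_cast at this
    rw [← this]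
    ring
  have h3 : (0 : ℝ) < (n : ℝ) + 2 := by positivity
  have h4 : ((n + 1).choose p.1 : ℝ) =
      ((n + 2).choose (p.1 + 1) : ℝ) * ((p.1 : ℝ) + 1) / ((n : ℝ) + 2) := by
    rw [eq_div_iff h3.ne', ← h2]; ring
  rw [h4, show 1 + p.1 = p.1 + 1 by ring]
  ring

theorem tri_two {W : ℕ → ℕ → ℝ} {n : ℕ} (hW : Tri W (n + 2)) :
    W 2 0 = ∑ p ∈ antidiagonal (n + 2),
      ((p.1 : ℝ) * ((p.1 : ℝ) - 1) / ((n + 2) * (n + 1))) *
        (((n + 2).choose p.1 : ℝ) * W p.1 p.2) := by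
  have e : ∀ F : ℕ × ℕ → ℝ, ∑ p ∈ antidiagonal (n + 2), F p =
      F (0, n + 2) + ∑ p ∈ antidiagonal (n + 1), F (p.1 + 1, p.2) :=
    fun F => Finset.Nat.sum_antidiagonal_succ
  have e' : ∀ F : ℕ × ℕ → ℝ, ∑ p ∈ antidiagonal (n + 1), F p =
      F (0, n + 1) + ∑ p ∈ antidiagonal n, F (p.1 + 1, p.2) :=
    fun F => Finset.Nat.sum_antidiagonal_succ
  rw [tri_sum hW n 2 0 (by omega), e, e']
  simp only [Nat.cast_zero, zero_div, zero_mul, zero_add, Nat.cast_add, Nat.cast_one, sub_self,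
    mul_zero, add_sub_cancel_right]
  refine Finset.sum_congr rfl fun p _ => ?_
  have h1 := Nat.add_one_mul_choose_eq n p.1
  have h1' := Nat.add_one_mul_choose_eq (n + 1) (p.1 + 1)
  have h2 : ((n : ℝ) + 1) * (n.choose p.1 : ℝ) =
      ((n + 1).choose (p.1 + 1) : ℝ) * ((p.1 : ℝ) + 1) := by
    have := congrArg (Nat.cast : ℕ → ℝ) h1
    push_cast at this
    rw [← this]
  have h2' : ((n : ℝ) + 2) * ((n + 1).choose (p.1 + 1) : ℝ) =
      ((n + 2).choose (p.1 + 1 + 1) : ℝ) * ((p.1 : ℝ) + 1 + 1) := by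
    have := congrArg (Nat.cast : ℕ → ℝ) h1'
    push_cast at this
    rw [← this]
    ring
  have h3 : (0 : ℝ) < (n : ℝ) + 1 := by positivity
  have h3' : (0 : ℝ) < (n : ℝ) + 2 := by positivity
  have h4 : (n.choose p.1 : ℝ) =
      ((n + 2).choose (p.1 + 1 + 1) : ℝ) * ((p.1 : ℝ) + 1 + 1) * ((p.1 : ℝ) + 1) /
        (((n : ℝ) + 2) * ((n : ℝ) + 1)) := by
    rw [eq_div_iff (by positivity), ← h2']
    linear_combination ((n : ℝ) + 2) * h2
  rw [h4, show 2 + p.1 = p.1 + 1 + 1 by ring]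
  ring

theorem tri_sq {W : ℕ → ℕ → ℝ} {n : ℕ} (hW : Tri W (n + 2))
    (h0 : ∀ i j, i + j ≤ n + 2 → 0 ≤ W i j) :
    W 1 0 ^ 2 ≤ W 0 0 * (W 2 0 + W 0 0 / (n + 1)) := by
  set c : ℕ × ℕ → ℝ := fun p => ((n + 2).choose p.1 : ℝ) * W p.1 p.2 with hc
  have hc0 : ∀ p ∈ antidiagonal (n + 2), 0 ≤ c p := fun p hp => by
    rw [HasAntidiagonal.mem_antidiagonal] at hp
    exact mul_nonneg (Nat.cast_nonneg _) (h0 _ _ (by omega))
  have e0 : W 0 0 = ∑ p ∈ antidiagonal (n + 2), c p := by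
    rw [tri_sum hW (n + 2) 0 0 (by omega)]
    simp [hc]
  have e1 := tri_one hW
  have e2 := tri_two hW
  have h1 : W 1 0 ^ 2 ≤ (∑ p ∈ antidiagonal (n + 2), c p) *
      ∑ p ∈ antidiagonal (n + 2), ((p.1 : ℝ) / (n + 2)) ^ 2 * c p := by
    rw [e1]
    refine Finset.sum_sq_le_sum_mul_sum_of_sq_le_mul _ hc0
      (fun p hp => mul_nonneg (sq_nonneg _) (hc0 p hp)) (fun p _ => ?_)
    rw [hc]
    exact le_of_eq (by ring)
  have h2 : ∑ p ∈ antidiagonal (n + 2), ((p.1 : ℝ) / (n + 2)) ^ 2 * c p ≤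
      W 2 0 + W 0 0 / (n + 1) := by
    rw [e2, e0, Finset.sum_div, ← Finset.sum_add_distrib]
    refine Finset.sum_le_sum fun p hp => ?_
    have hp' := HasAntidiagonal.mem_antidiagonal.1 hp
    have hle : (p.1 : ℝ) ≤ n + 2 := by
      have : p.1 ≤ n + 2 := by omega
      exact_mod_cast this
    have hx0 : (0:ℝ) ≤ p.1 := Nat.cast_nonneg _
    have hn1 : (0 : ℝ) < (n : ℝ) + 1 := by positivity
    have hn2 : (0 : ℝ) < (n : ℝ) + 2 := by positivity
    have key : ((p.1 : ℝ) / (n + 2)) ^ 2 ≤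
        (p.1 : ℝ) * ((p.1 : ℝ) - 1) / ((n + 2) * (n + 1)) + 1 / (n + 1) := by
      rw [div_pow, div_add_div _ _ (by positivity) (by positivity), div_le_div_iff₀ (by positivity)
        (by positivity)]
      have : (p.1 : ℝ) * ((n + 2) - p.1) ≤ (n + 2) ^ 2 := by nlinarith
      have h5 : 0 ≤ ((n : ℝ) + 1) * (((n:ℝ) + 2)) * ((n + 2) ^ 2 - (p.1 : ℝ) * ((n + 2) - p.1)) := by
        apply mul_nonneg (by positivity); linarith
      nlinarith [h5]
    have := mul_le_mul_of_nonneg_right key (hc0 p hp)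
    calc ((p.1 : ℝ) / (n + 2)) ^ 2 * c p ≤ _ := this
      _ = _ := by rw [hc]; ring
  rw [← e0] at h1
  exact h1.trans (mul_le_mul_of_nonneg_left h2 (h0 0 0 (by omega)))

/-- the limit of the inequality `tri_sq` -/
theorem sq_le_of_lim {A B C : ℝ} (h : ∀ n : ℕ, B ^ 2 ≤ A * (C + A / (n + 1))) : B ^ 2 ≤ A * C := by
  have h1 : Tendsto (fun n : ℕ => A * (C + A * (1 / ((n : ℝ) + 1)))) atTop
      (𝓝 (A * (C + A * 0))) :=
    ((tendsto_one_div_add_atTop_nhds_zero_nat.const_mul A).const_add C).const_mul A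
  rw [mul_zero, add_zero] at h1
  refine ge_of_tendsto' h1 fun n => ?_
  have := h n
  rwa [mul_one_div]

/-- exponential growth beats linear growth -/
theorem blowup {a b C : ℝ} (_ha : 0 ≤ a) (_hb : 0 ≤ b) (hab : 1 < a + b)
    (h : ∀ m n : ℕ, ((m + n).choose m : ℝ) * (a ^ m * b ^ n) ≤ C) : False := by
  have h1 : ∀ k : ℕ, (a + b) ^ k ≤ ((k : ℝ) + 1) * C := by
    intro k
    rw [(Commute.all a b).add_pow' k]
    simp only [nsmul_eq_mul]
    calc ∑ p ∈ antidiagonal k, ((k.choose p.1 : ℕ) : ℝ) * (a ^ p.1 * b ^ p.2)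
        ≤ ∑ p ∈ antidiagonal k, C := Finset.sum_le_sum fun p hp => by
          rw [HasAntidiagonal.mem_antidiagonal] at hp
          have := h p.1 p.2
          rwa [hp] at this
      _ = ((k : ℝ) + 1) * C := by
          rw [Finset.sum_const, Finset.Nat.card_antidiagonal, nsmul_eq_mul]
          push_cast
          ring
  have h2 := tendsto_pow_const_div_const_pow_of_one_lt 1 hab
  have h3 := tendsto_pow_const_div_const_pow_of_one_lt 0 hab
  have h4 : Tendsto (fun k : ℕ => ((k : ℝ) ^ 1 / (a + b) ^ k + (k : ℝ) ^ 0 / (a + b) ^ k) * C)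
      atTop (𝓝 ((0 + 0) * C)) := (h2.add h3).mul_const C
  rw [add_zero, zero_mul] at h4
  have h5 : ∀ k : ℕ, (1 : ℝ) ≤ ((k : ℝ) ^ 1 / (a + b) ^ k + (k : ℝ) ^ 0 / (a + b) ^ k) * C := by
    intro k
    have hp : 0 < (a + b) ^ k := by positivity
    rw [pow_one, pow_zero, ← add_div, div_mul_eq_mul_div, le_div_iff₀ hp, one_mul]
    exact h1 k
  have h6 := ge_of_tendsto' h4 h5
  linarith

end Pool.Agent.X182.FE
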